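import Pool.Agent.FML.DefsM

/-!
# FML/AdL (size 2)

`aD (Kd d) ≤ 4 d`.  PROOF.  Take integers `t'', z` with `2 s = t'' + z √(aD K) i` from `coord`; the
imaginary part gives `2 √d = z √(aD K)`, so `4 d = z² aD K`, `z ≠ 0`, `aD K ≤ 4 d`.
-/

set_option autoImplicit false

namespace Pool.Agent.FML

open NumberField Pool.Agent.FTA nonZeroDivisors

theorem adL (d : ℕ) (hd : 1 ≤ d) (hK : NumberField (Kd d)) (h2 : Module.finrank ℚ (Kd d) = 2)
    (him : ∃ x : Kd d, (x : ℂ).im ≠ 0) (s : 𝓞 (Kd d))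
    (hs : ((s : Kd d) : ℂ) = ((√(d : ℝ) : ℝ) : ℂ) * Complex.I) : aD (Kd d) ≤ 4 * d := by
  obtain ⟨t, z, h⟩ := coord (Kd d) h2 him s
  rw [hs] at h
  have h1 := congrArg Complex.im h
  simp only [Complex.mul_im, Complex.add_im, Complex.intCast_re, Complex.intCast_im,
      Complex.ofReal_re, Complex.ofReal_im, Complex.I_re, Complex.I_im, Complex.mul_re,
      Complex.re_ofNat, Complex.im_ofNat] at h1
  have h3 : 2 * √(d : ℝ) = (z : ℝ) * √(aD (Kd d) : ℝ) := by linarith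
  have h4 : 4 * (d : ℝ) = (z : ℝ) ^ 2 * (aD (Kd d) : ℝ) := by
    have e1 : (2 * √(d : ℝ)) ^ 2 = ((z : ℝ) * √(aD (Kd d) : ℝ)) ^ 2 := by rw [h3]
    rw [mul_pow, mul_pow, Real.sq_sqrt (by positivity), Real.sq_sqrt (by positivity)] at e1
    linarith
  have h5 : (z : ℤ) ≠ 0 := by
    rintro rfl
    have : (0 : ℝ) < (d : ℝ) := by exact_mod_cast hd
    simp at h4
    omega
  have h6 : (1 : ℤ) ≤ z ^ 2 := by
    have := sq_nonneg z
    have h7 : z ^ 2 ≠ 0 := pow_ne_zero 2 h5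
    omega
  have h8 : (4 * d : ℤ) = z ^ 2 * (aD (Kd d) : ℤ) := by exact_mod_cast h4
  have h9 : (0 : ℤ) ≤ (aD (Kd d) : ℤ) := by positivity
  have : (aD (Kd d) : ℤ) ≤ 4 * d := by
    rw [h8]
    nlinarith
  exact_mod_cast this

end Pool.Agent.FML
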