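import Pool.Agent.FML.DefsM

/-!
# FML/AlM (size 2)

PROOF.  The identity `(tq)² + a² Dz = 4 (Nq)³` holds in `ℤ` by `ring`.  `P < a c ≤ N` and `N = b² + a c ≤ 16 Y² + 3P/2 ≤ 2P` by
`h1` (`b < a ≤ 4Y`).  `a² Dz = 4 N³ - t² ≥ 4 N³ - R² > 4 P³ - P³ ≥ 0` (if `P = 0` it is `4 N³ - t² > 0` too, since
`N ≥ 1` and `t ≤ R = 0`), so `Dz > 0` and `Dq = Dz` (`Int.toNat_of_nonneg`).  `a² Dq ≤ 4 N³ ≤ 32 P³`.
-/

set_option autoImplicit false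

namespace Pool.Agent.FML

open NumberField Pool.Agent.FTA nonZeroDivisors

theorem alM (P Y R a b c d : ℕ) (h1 : 129 * Y ^ 2 ≤ P) (h2 : R ^ 2 ≤ P ^ 3)
    (h : IsQ P Y R a b c d) :
    P < Nq a b c ∧ Nq a b c ≤ 2 * P ∧ 1 ≤ Dq a b c d ∧
      tq a b c d ^ 2 + a ^ 2 * Dq a b c d = 4 * Nq a b c ^ 3 ∧ a ^ 2 * Dq a b c d ≤ 32 * P ^ 3 := by
  obtain ⟨pr, la, ua, lb, ub, lc, uc, ld, ut, co⟩ := h
  have hNdef : Nq a b c = b ^ 2 + a * c := rfl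
  have hid : (tq a b c d : ℤ) ^ 2 + (a : ℤ) ^ 2 * Dz a b c d = 4 * (Nq a b c : ℤ) ^ 3 := by
    unfold tq Dz Nq
    push_cast
    ring
  have hb4 : b ≤ 4 * Y := by omega
  have hb2 : b ^ 2 ≤ (4 * Y) ^ 2 := Nat.pow_le_pow_left hb4 2
  have hb3 : b ^ 2 ≤ 16 * Y ^ 2 := by
    calc b ^ 2 ≤ (4 * Y) ^ 2 := hb2
      _ = 16 * Y ^ 2 := by ring
  have hPN : P < Nq a b c := by
    rw [hNdef]
    have := Nat.zero_le (b ^ 2)
    omega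
  have hN2 : Nq a b c ≤ 2 * P := by
    rw [hNdef]
    omega
  have ht2 : tq a b c d ^ 2 ≤ P ^ 3 := le_trans (Nat.pow_le_pow_left ut 2) h2
  have hP3 : P ^ 3 < Nq a b c ^ 3 := Nat.pow_lt_pow_left hPN (by norm_num)
  have htZ : (tq a b c d : ℤ) ^ 2 < (Nq a b c : ℤ) ^ 3 := by
    have := lt_of_le_of_lt ht2 hP3
    exact_mod_cast this
  have hapos : 0 < (a : ℤ) ^ 2 := by
    have : 0 < a := pr.pos
    positivity
  have hN0 : (0 : ℤ) ≤ (Nq a b c : ℤ) ^ 3 := by positivity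
  have hprod : 0 < (a : ℤ) ^ 2 * Dz a b c d := by
    linarith
  have hDpos : 0 < Dz a b c d := pos_of_mul_pos_right hprod hapos.le
  have hcast : ((Dq a b c d : ℕ) : ℤ) = Dz a b c d := by
    unfold Dq
    exact Int.toNat_of_nonneg hDpos.le
  have hD1 : 1 ≤ Dq a b c d := by
    have : (0 : ℤ) < ((Dq a b c d : ℕ) : ℤ) := by rw [hcast]; exact hDpos
    exact_mod_cast this
  have hidN : tq a b c d ^ 2 + a ^ 2 * Dq a b c d = 4 * Nq a b c ^ 3 := by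
    have : ((tq a b c d ^ 2 + a ^ 2 * Dq a b c d : ℕ) : ℤ) = ((4 * Nq a b c ^ 3 : ℕ) : ℤ) := by
      push_cast
      rw [hcast]
      exact hid
    exact_mod_cast this
  refine ⟨hPN, hN2, hD1, hidN, ?_⟩
  have hN3 : Nq a b c ^ 3 ≤ (2 * P) ^ 3 := Nat.pow_le_pow_left hN2 3
  have hexp : (2 * P) ^ 3 = 8 * P ^ 3 := by ring
  rw [hexp] at hN3
  have := Nat.zero_le (tq a b c d ^ 2)
  omega

end Pool.Agent.FML
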