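import Pool.Agent.FTA.DefsC
import Pool.Agent.FTA.Cnt

/-!
# FML/ApC (size 2)

PROOF.  The difference `n - n'` of two elements is divisible by `q` (`q ∣ v (n - n')`, `q ∤ v`), and is `≤ B - 1`:
apply `Pool.Agent.FTA.cnt` to the image of the set in `ℤ` with `m = q` and `L = B` (or a direct injection
`n ↦ n / q`, which takes at most `B / q + 1` values).
-/

set_option autoImplicit false

namespace Pool.Agent.FML

open NumberField Pool.Agent.FTA nonZeroDivisors

theorem apC (q A B u v : ℕ) (hq : q.Prime) (hv : ¬ q ∣ v) :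
    (((Finset.Ioc A (A + B)).filter (fun n => q ∣ u + v * n)).card : ℝ) ≤ B / q + 1 := by
  classical
  set S := (Finset.Ioc A (A + B)).filter (fun n => q ∣ u + v * n) with hS
  have hc : (S.image (fun n : ℕ => (n : ℤ))).card = S.card :=
    Finset.card_image_of_injective _ Nat.cast_injective
  rw [← hc]
  refine cnt _ q hq.one_lt.le (B : ℝ) (Nat.cast_nonneg _) ?_ ?_
  · intro x hx y hy
    rw [Finset.mem_image] at hx hy
    obtain ⟨n, hn, rfl⟩ := hx
    obtain ⟨n', hn', rfl⟩ := hy
    rw [hS, Finset.mem_filter] at hn hn'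
    have h1 : (q : ℤ) ∣ (u : ℤ) + v * n := by exact_mod_cast hn.2
    have h2 : (q : ℤ) ∣ (u : ℤ) + v * n' := by exact_mod_cast hn'.2
    have h3 : (q : ℤ) ∣ (v : ℤ) * ((n : ℤ) - n') := by
      have h4 := dvd_sub h1 h2
      have h5 : (u : ℤ) + v * n - (u + v * n') = (v : ℤ) * ((n : ℤ) - n') := by ring
      rwa [h5] at h4
    rcases (Nat.prime_iff_prime_int.1 hq).dvd_or_dvd h3 with h6 | h6
    · exact absurd (Int.natCast_dvd_natCast.1 h6) hv
    · exact h6
  · intro x hx y hy
    rw [Finset.mem_image] at hx hy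
    obtain ⟨n, hn, rfl⟩ := hx
    obtain ⟨n', hn', rfl⟩ := hy
    rw [hS, Finset.mem_filter, Finset.mem_Ioc] at hn hn'
    have h1 : (n : ℝ) ≤ A + B := by exact_mod_cast hn.1.2
    have h2 : (A : ℝ) ≤ n' := by exact_mod_cast hn'.1.1.le
    push_cast
    linarith

end Pool.Agent.FML
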