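import Pool.Agent.FTA.DefsC

/-!
# FML/BgP (size 1)

PROOF.  If two different primes `q, q' > C` divide `N ≥ 1` then `(C + 1)² ≤ q q' ≤ N`, a contradiction.
(`Finset.card_le_one`.)
-/

set_option autoImplicit false

namespace Pool.Agent.FML

open NumberField Pool.Agent.FTA nonZeroDivisors

theorem bgP (C N : ℕ) (h0 : 1 ≤ N) (hN : N < (C + 1) ^ 2) :
    (N.primeFactors.filter (fun q => C < q)).card ≤ 1 := by
  rw [Finset.card_le_one]
  intro a ha b hb
  rw [Finset.mem_filter] at ha hb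
  by_contra hab
  have pa := Nat.prime_of_mem_primeFactors ha.1
  have pb := Nat.prime_of_mem_primeFactors hb.1
  have hcop : Nat.Coprime a b := (Nat.coprime_primes pa pb).2 hab
  have hd : a * b ∣ N := hcop.mul_dvd_of_dvd_of_dvd (Nat.dvd_of_mem_primeFactors ha.1)
    (Nat.dvd_of_mem_primeFactors hb.1)
  have hle : a * b ≤ N := Nat.le_of_dvd h0 hd
  have h1 : (C + 1) * (C + 1) ≤ a * b := Nat.mul_le_mul ha.2 hb.2
  have h2 : (C + 1) ^ 2 = (C + 1) * (C + 1) := by ring
  omega

end Pool.Agent.FML
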