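import Pool.Agent.FTA.DefsC

/-!
# FML/SqP (size 2)

PROOF.  The prime 2 contributes `1/4`; every other prime is odd, `q = 2 j + 1` with `j ≥ 1`, and
`1 / (2 j + 1)² ≤ 1 / (4 j (j + 1)) = (1 / j - 1 / (j + 1)) / 4`, so the odd part is at most `1/4`
(telescoping sum).  (So the sum over the filter is at most `1/4 + ∑ j ∈ Icc 1 Q, 1 / (4 j (j+1))`.)
-/

set_option autoImplicit false

namespace Pool.Agent.FML

open NumberField Pool.Agent.FTA nonZeroDivisors

private theorem sqP_odd (Q : ℕ) :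
    ∑ j ∈ Finset.Icc 1 Q, (1 / ((2 * j + 1 : ℕ) : ℝ) ^ 2) ≤ 1 / 4 - 1 / (4 * ((Q : ℝ) + 1)) := by
  induction Q with
  | zero => norm_num
  | succ n ih =>
    rw [Finset.sum_Icc_succ_top (by omega)]
    have h1 : (1 / ((2 * (n + 1) + 1 : ℕ) : ℝ) ^ 2) ≤
        1 / (4 * ((n : ℝ) + 1)) - 1 / (4 * (((n + 1 : ℕ) : ℝ) + 1)) := by
      push_cast
      have hn : (0 : ℝ) ≤ n := Nat.cast_nonneg n
      have e : 1 / (4 * ((n : ℝ) + 1)) - 1 / (4 * ((n : ℝ) + 1 + 1)) =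
          1 / (4 * ((n : ℝ) + 1) * ((n : ℝ) + 1 + 1)) := by
        field_simp
        ring
      rw [e]
      apply one_div_le_one_div_of_le (by positivity)
      nlinarith
    linarith

theorem sqP (Q : ℕ) : ∑ q ∈ (Finset.Icc 1 Q).filter Nat.Prime, (1 / (q : ℝ) ^ 2) ≤ 1 / 2 := by
  have hsub : (Finset.Icc 1 Q).filter Nat.Prime ⊆
      insert 2 ((Finset.Icc 1 Q).image fun j => 2 * j + 1) := by
    intro q hq
    rw [Finset.mem_filter, Finset.mem_Icc] at hq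
    obtain ⟨⟨h1, h2⟩, hp⟩ := hq
    rw [Finset.mem_insert, Finset.mem_image]
    rcases hp.eq_two_or_odd with h | h
    · exact Or.inl h
    · right
      have := hp.two_le
      refine ⟨q / 2, ?_, by omega⟩
      rw [Finset.mem_Icc]
      omega
  have h2 : (2 : ℕ) ∉ (Finset.Icc 1 Q).image fun j => 2 * j + 1 := by
    rw [Finset.mem_image]
    rintro ⟨j, -, hj⟩
    omega
  calc ∑ q ∈ (Finset.Icc 1 Q).filter Nat.Prime, (1 / (q : ℝ) ^ 2)
      ≤ ∑ q ∈ (insert 2 ((Finset.Icc 1 Q).image fun j => 2 * j + 1) : Finset ℕ),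
          (1 / (q : ℝ) ^ 2) :=
        Finset.sum_le_sum_of_subset_of_nonneg hsub fun _ _ _ => by positivity
    _ = 1 / ((2 : ℕ) : ℝ) ^ 2 + ∑ j ∈ Finset.Icc 1 Q, (1 / ((2 * j + 1 : ℕ) : ℝ) ^ 2) := by
        rw [Finset.sum_insert h2, Finset.sum_image]
        intro a _ b _ hab
        simp only at hab
        omega
    _ ≤ 1 / 2 := by
        have h3 := sqP_odd Q
        have h4 : 0 ≤ 1 / (4 * ((Q : ℝ) + 1)) := by positivity
        have h5 : (1 : ℝ) / ((2 : ℕ) : ℝ) ^ 2 = 1 / 4 := by norm_num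
        rw [h5]
        linarith

end Pool.Agent.FML
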