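import Pool.Agent.FML.DefsM
import Pool.Agent.FML.SqP
import Pool.Agent.FML.ApC
import Pool.Agent.FML.BgP

/-!
# FML/Cop (size 4)

The number of coprime pairs.  PROOF.  Let `B` be the box `Ioc C1 (C1 + C2) ×ˢ Icc 1 D1` (`C2 D1` elements).  If
`N = Nq a b c` and `t = tq a b c d` are not coprime there is a prime `q` dividing both.  `q ≠ a`, because `a ∣ N` would give
`a ∣ b²`, `a ∣ b`, against `1 ≤ b < a`.
 (i) `q ≤ C2`.  For fixed `q`: the number of `c` in `Ioc C1 (C1 + C2)` with `q ∣ b² + a c` is `≤ C2 / q + 1` (`apC`,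
`q ∤ a`), and for each such `c` the number of `d ∈ Icc 1 D1 = Ioc 0 (0 + D1)` with `q ∣ (2 b³ + 3 a b c) + a² d` is
`≤ D1 / q + 1` (`apC`, `q ∤ a²`).  Product: `≤ C2 D1 / q² + (C2 + D1) / q + 1`.  Sum over the primes `q ≤ C2`:
`≤ C2 D1 / 2 + (C2 + D1) (1 + log C2) + C2`, with `sqP` and `∑_{q ≤ C2} 1 / q ≤ 1 + log C2`
(`harmonic_le_one_add_log`, or `Finset.sum` bounds; the sum over all `1 ≤ q ≤ C2` is fine for the last two terms).
 (ii) `q > C2`.  For each `c` there is at most one such prime dividing `N` (`bgP`, `N ≥ 1` as `b ≥ 1`), and for it at most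
`D1 / q + 1 ≤ D1 / C2 + 1` values of `d` (`apC`); sum over `c`: `≤ C2 (D1 / C2 + 1) = D1 + C2`.
Total of the bad pairs: `≤ C2 D1 / 2 + (C2 + D1) (2 + log C2) + C2 ≤ (3/4) C2 D1` by `hlog`.
-/

set_option autoImplicit false

namespace Pool.Agent.FML

open NumberField Pool.Agent.FTA nonZeroDivisors

private theorem Cop_prod (A D : Finset ℕ) (R : ℕ → ℕ → Prop) [DecidablePred fun x : ℕ × ℕ => R x.1 x.2]
    [∀ c, DecidablePred (R c)] :
    ((A ×ˢ D).filter (fun x : ℕ × ℕ => R x.1 x.2)).card = ∑ c ∈ A, (D.filter (R c)).card := by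
  rw [Finset.card_filter, Finset.sum_product]
  refine Finset.sum_congr rfl fun c _ => ?_
  rw [Finset.card_filter]

private theorem Cop_d (a b c D1 q : ℕ) (ha : a.Prime) (hq : q.Prime) (hqa : q ≠ a) :
    (((Finset.Icc 1 D1).filter (fun d => q ∣ tq a b c d)).card : ℝ) ≤ D1 / q + 1 := by
  have hv : ¬ q ∣ a ^ 2 := by
    intro h
    exact hqa ((Nat.prime_dvd_prime_iff_eq hq ha).1 (hq.dvd_of_dvd_pow h))
  have h := apC q 0 D1 (2 * b ^ 3 + 3 * a * b * c) (a ^ 2) hq hv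
  have e : Finset.Ioc 0 (0 + D1) = Finset.Icc 1 D1 := by
    ext x
    simp only [Finset.mem_Ioc, Finset.mem_Icc]
    omega
  rw [e] at h
  exact h

private theorem Cop_q (a b C1 C2 D1 q : ℕ) (ha : a.Prime) (hq : q.Prime) (hqa : q ≠ a) :
    ((((Finset.Ioc C1 (C1 + C2)) ×ˢ (Finset.Icc 1 D1)).filter
      (fun x : ℕ × ℕ => q ∣ Nq a b x.1 ∧ q ∣ tq a b x.1 x.2)).card : ℝ) ≤
      C2 * D1 * (1 / (q : ℝ) ^ 2) + (C2 + D1) * (1 / (q : ℝ)) + 1 := by
  classical
  have hq0 : (0 : ℝ) < q := by exact_mod_cast hq.pos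
  rw [Cop_prod _ _ (fun c d => q ∣ Nq a b c ∧ q ∣ tq a b c d)]
  push_cast
  have h1 : ∀ c ∈ Finset.Ioc C1 (C1 + C2),
      (((Finset.Icc 1 D1).filter (fun d => q ∣ Nq a b c ∧ q ∣ tq a b c d)).card : ℝ) ≤
        if q ∣ Nq a b c then ((D1 : ℝ) / q + 1) else 0 := by
    intro c _
    by_cases h : q ∣ Nq a b c
    · rw [if_pos h]
      simp only [h, true_and]
      exact Cop_d a b c D1 q ha hq hqa
    · rw [if_neg h]
      simp [h]
  refine (Finset.sum_le_sum h1).trans ?_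
  rw [← Finset.sum_filter, Finset.sum_const, nsmul_eq_mul]
  have hv : ¬ q ∣ a := fun h => hqa ((Nat.prime_dvd_prime_iff_eq hq ha).1 h)
  have h2 := apC q C1 C2 (b ^ 2) a hq hv
  have h3 : (((Finset.Ioc C1 (C1 + C2)).filter (fun c => q ∣ Nq a b c)).card : ℝ) ≤ C2 / q + 1 := h2
  have h4 : (0 : ℝ) ≤ (D1 : ℝ) / q + 1 := by positivity
  refine (mul_le_mul_of_nonneg_right h3 h4).trans (le_of_eq ?_)
  field_simp
  ring

private theorem Cop_big (a b C1 C2 D1 : ℕ) (ha : a.Prime) (hb : 1 ≤ b) (hC : 1 ≤ C2)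
    (hN : ∀ c ≤ C1 + C2, Nq a b c < (C2 + 1) ^ 2) :
    ((((Finset.Ioc C1 (C1 + C2)) ×ˢ (Finset.Icc 1 D1)).filter
      (fun x : ℕ × ℕ => ∃ q ∈ (Nq a b x.1).primeFactors.filter (fun q => C2 < q),
        q ≠ a ∧ q ∣ tq a b x.1 x.2)).card : ℝ) ≤ D1 + C2 := by
  classical
  have hC0 : (0 : ℝ) < C2 := by exact_mod_cast hC
  rw [Cop_prod _ _ (fun c d => ∃ q ∈ (Nq a b c).primeFactors.filter (fun q => C2 < q),
        q ≠ a ∧ q ∣ tq a b c d)]
  push_cast
  have h1 : ∀ c ∈ Finset.Ioc C1 (C1 + C2),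
      (((Finset.Icc 1 D1).filter (fun d => ∃ q ∈ (Nq a b c).primeFactors.filter (fun q => C2 < q),
        q ≠ a ∧ q ∣ tq a b c d)).card : ℝ) ≤ (D1 : ℝ) / C2 + 1 := by
    intro c hc
    rw [Finset.mem_Ioc] at hc
    have hN0 : 1 ≤ Nq a b c := by
      unfold Nq
      have : 1 ≤ b ^ 2 := Nat.one_le_pow _ _ hb
      omega
    have hcard := bgP C2 (Nq a b c) hN0 (hN c hc.2)
    have hpos : (0 : ℝ) ≤ (D1 : ℝ) / C2 + 1 := by positivity
    rcases Finset.card_le_one_iff_subset_singleton.1 hcard with ⟨q, hq⟩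
    by_cases hq2 : q ∈ (Nq a b c).primeFactors.filter (fun q => C2 < q) ∧ q ≠ a
    · have hqp : q.Prime := Nat.prime_of_mem_primeFactors (Finset.mem_filter.1 hq2.1).1
      have hqC : C2 < q := (Finset.mem_filter.1 hq2.1).2
      have h2 := Cop_d a b c D1 q ha hqp hq2.2
      have h3 : ((Finset.Icc 1 D1).filter (fun d => ∃ q ∈ (Nq a b c).primeFactors.filter
          (fun q => C2 < q), q ≠ a ∧ q ∣ tq a b c d)) ⊆
          (Finset.Icc 1 D1).filter (fun d => q ∣ tq a b c d) := by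
        intro d hd
        rw [Finset.mem_filter] at hd ⊢
        obtain ⟨hd1, r, hr, -, hrt⟩ := hd
        have hrq := Finset.mem_singleton.1 (hq hr)
        rw [hrq] at hrt
        exact ⟨hd1, hrt⟩
      have h4 : (((Finset.Icc 1 D1).filter (fun d => ∃ q ∈ (Nq a b c).primeFactors.filter
          (fun q => C2 < q), q ≠ a ∧ q ∣ tq a b c d)).card : ℝ) ≤
          (((Finset.Icc 1 D1).filter (fun d => q ∣ tq a b c d)).card : ℝ) := by
        exact_mod_cast Finset.card_le_card h3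
      have h5 : (D1 : ℝ) / q ≤ D1 / C2 := by
        apply div_le_div_of_nonneg_left (Nat.cast_nonneg _) hC0
        exact_mod_cast hqC.le
      linarith
    · have h3 : ((Finset.Icc 1 D1).filter (fun d => ∃ q ∈ (Nq a b c).primeFactors.filter
          (fun q => C2 < q), q ≠ a ∧ q ∣ tq a b c d)) = ∅ := by
        rw [Finset.filter_eq_empty_iff]
        rintro d - ⟨r, hr, hra, -⟩
        have hrq := Finset.mem_singleton.1 (hq hr)
        rw [hrq] at hr hra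
        exact hq2 ⟨hr, hra⟩
      rw [h3]
      simpa using hpos
  refine (Finset.sum_le_sum h1).trans ?_
  rw [Finset.sum_const, nsmul_eq_mul, Nat.card_Ioc]
  have e : ((C1 + C2 - C1 : ℕ) : ℝ) = C2 := by
    rw [Nat.add_sub_cancel_left]
  rw [e, mul_add, mul_div_cancel₀ _ hC0.ne', mul_one]

theorem cop (a b C1 C2 D1 : ℕ) (ha : a.Prime) (hb : 1 ≤ b) (hba : b < a) (hC : 1 ≤ C2)
    (hN : ∀ c ≤ C1 + C2, Nq a b c < (C2 + 1) ^ 2)
    (hlog : 4 * (((C2 : ℝ) + D1) * (2 + Real.log C2) + C2) ≤ (C2 : ℝ) * D1) :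
    (C2 : ℝ) * D1 / 4 ≤
      ((((Finset.Ioc C1 (C1 + C2)) ×ˢ (Finset.Icc 1 D1)).filter
        (fun x => Nat.Coprime (Nq a b x.1) (tq a b x.1 x.2))).card : ℝ) := by
  classical
  set B := (Finset.Ioc C1 (C1 + C2)) ×ˢ (Finset.Icc 1 D1) with hB
  have hcard : (B.card : ℝ) = C2 * D1 := by
    rw [hB, Finset.card_product, Nat.card_Ioc, Nat.card_Icc]
    push_cast
    congr 1
    · rw [Nat.add_sub_cancel_left]
  have hsplit := Finset.card_filter_add_card_filter_not (s := B)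
    (fun x : ℕ × ℕ => Nat.Coprime (Nq a b x.1) (tq a b x.1 x.2))
  set PR := ((Finset.Icc 1 C2).filter Nat.Prime).filter (fun q => q ≠ a) with hPR
  have hsub : B.filter (fun x : ℕ × ℕ => ¬ Nat.Coprime (Nq a b x.1) (tq a b x.1 x.2)) ⊆
      (PR.biUnion fun q => B.filter (fun x : ℕ × ℕ => q ∣ Nq a b x.1 ∧ q ∣ tq a b x.1 x.2)) ∪
      B.filter (fun x : ℕ × ℕ => ∃ q ∈ (Nq a b x.1).primeFactors.filter (fun q => C2 < q),
        q ≠ a ∧ q ∣ tq a b x.1 x.2) := by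
    intro x hx
    rw [Finset.mem_filter] at hx
    obtain ⟨hxB, hx2⟩ := hx
    obtain ⟨q, hq, hq1, hq2⟩ := Nat.Prime.not_coprime_iff_dvd.1 hx2
    have hqa : q ≠ a := by
      rintro rfl
      unfold Nq at hq1
      have h1 : q ∣ b ^ 2 := (Nat.dvd_add_left (Dvd.intro _ rfl)).1 hq1
      have h2 := Nat.le_of_dvd hb (hq.dvd_of_dvd_pow h1)
      omega
    rw [Finset.mem_union]
    by_cases hqC : q ≤ C2
    · left
      rw [Finset.mem_biUnion]
      refine ⟨q, ?_, ?_⟩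
      · rw [hPR, Finset.mem_filter, Finset.mem_filter, Finset.mem_Icc]
        exact ⟨⟨⟨hq.one_lt.le, hqC⟩, hq⟩, hqa⟩
      · rw [Finset.mem_filter]
        exact ⟨hxB, hq1, hq2⟩
    · right
      rw [Finset.mem_filter]
      refine ⟨hxB, q, ?_, hqa, hq2⟩
      rw [Finset.mem_filter]
      refine ⟨?_, by omega⟩
      rw [Nat.mem_primeFactors]
      refine ⟨hq, hq1, ?_⟩
      unfold Nq
      have : 1 ≤ b ^ 2 := Nat.one_le_pow _ _ hb
      omega
  have h1 : ((B.filter (fun x : ℕ × ℕ => ¬ Nat.Coprime (Nq a b x.1) (tq a b x.1 x.2))).card : ℝ) ≤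
      (∑ q ∈ PR, ((B.filter (fun x : ℕ × ℕ => q ∣ Nq a b x.1 ∧ q ∣ tq a b x.1 x.2)).card : ℝ)) +
      ((B.filter (fun x : ℕ × ℕ => ∃ q ∈ (Nq a b x.1).primeFactors.filter (fun q => C2 < q),
        q ≠ a ∧ q ∣ tq a b x.1 x.2)).card : ℝ) := by
    have h2 := (Finset.card_le_card hsub).trans (Finset.card_union_le _ _)
    have h3 := Finset.card_biUnion_le (s := PR)
      (t := fun q => B.filter (fun x : ℕ × ℕ => q ∣ Nq a b x.1 ∧ q ∣ tq a b x.1 x.2))
    have h4 := h2.trans (Nat.add_le_add_right h3 _)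
    exact_mod_cast h4
  have h2 : (∑ q ∈ PR, ((B.filter (fun x : ℕ × ℕ => q ∣ Nq a b x.1 ∧
      q ∣ tq a b x.1 x.2)).card : ℝ)) ≤
      ∑ q ∈ (Finset.Icc 1 C2).filter Nat.Prime,
        (C2 * D1 * (1 / (q : ℝ) ^ 2) + (C2 + D1) * (1 / (q : ℝ)) + 1) := by
    refine (Finset.sum_le_sum (g := fun q : ℕ =>
      ((C2 : ℝ) * D1 * (1 / (q : ℝ) ^ 2) + (C2 + D1) * (1 / (q : ℝ)) + 1)) ?_).trans ?_
    · intro q hq
      rw [hPR, Finset.mem_filter, Finset.mem_filter] at hq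
      exact Cop_q a b C1 C2 D1 q ha hq.1.2 hq.2
    · refine Finset.sum_le_sum_of_subset_of_nonneg (Finset.filter_subset _ _) ?_
      intro q _ _
      positivity
  have hD : (0 : ℝ) ≤ (C2 : ℝ) * D1 := by positivity
  have h3 : ∑ q ∈ (Finset.Icc 1 C2).filter Nat.Prime,
        (C2 * D1 * (1 / (q : ℝ) ^ 2) + (C2 + D1) * (1 / (q : ℝ)) + 1) ≤
      C2 * D1 / 2 + (C2 + D1) * (1 + Real.log C2) + C2 := by
    rw [Finset.sum_add_distrib, Finset.sum_add_distrib, ← Finset.mul_sum, ← Finset.mul_sum,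
      Finset.sum_const, nsmul_eq_mul, mul_one]
    have e1 := sqP C2
    have e2 : ∑ q ∈ (Finset.Icc 1 C2).filter Nat.Prime, (1 / (q : ℝ)) ≤ 1 + Real.log C2 := by
      have e3 : ∑ q ∈ (Finset.Icc 1 C2).filter Nat.Prime, (1 / (q : ℝ)) ≤
          ∑ q ∈ Finset.Icc 1 C2, (1 / (q : ℝ)) := by
        refine Finset.sum_le_sum_of_subset_of_nonneg (Finset.filter_subset _ _) ?_
        intro q _ _
        positivity
      have e4 := harmonic_le_one_add_log C2
      rw [harmonic_eq_sum_Icc] at e4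
      push_cast at e4
      simp only [one_div] at e3 ⊢
      linarith
    have e5 : (((Finset.Icc 1 C2).filter Nat.Prime).card : ℝ) ≤ C2 := by
      have := Finset.card_filter_le (Finset.Icc 1 C2) Nat.Prime
      rw [Nat.card_Icc, Nat.add_sub_cancel] at this
      exact_mod_cast this
    have e6 := mul_le_mul_of_nonneg_left e1 hD
    have e7 : (0 : ℝ) ≤ (C2 : ℝ) + D1 := by positivity
    have e8 := mul_le_mul_of_nonneg_left e2 e7
    linarith
  have h4 := Cop_big a b C1 C2 D1 ha hb hC hN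
  have h5 : ((B.filter (fun x : ℕ × ℕ => Nat.Coprime (Nq a b x.1) (tq a b x.1 x.2))).card : ℝ) +
      ((B.filter (fun x : ℕ × ℕ => ¬ Nat.Coprime (Nq a b x.1) (tq a b x.1 x.2))).card : ℝ) =
      B.card := by
    exact_mod_cast hsplit
  rw [hcard] at h5
  have h6 : ((C2 : ℝ) + D1) * (2 + Real.log C2) = (C2 + D1) * (1 + Real.log C2) + (C2 + D1) := by
    ring
  have h7 : C2 * D1 / 4 ≤
      ((B.filter (fun x : ℕ × ℕ => Nat.Coprime (Nq a b x.1) (tq a b x.1 x.2))).card : ℝ) := by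
    rw [h6] at hlog
    linarith
  exact h7

end Pool.Agent.FML
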