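import Pool.Agent.FML.DefsM
import Pool.Agent.FML.Cop

/-!
# FML/CnM (size 4)

The number of quadruples.  PROOF.  For a prime `a ∈ (Y, 4Y]` and `1 ≤ b ≤ a - 1` put `C1 = P / a`, `C1 + C2 = 3 P / (2 a)`,
`D1 = R / (2 a²)` (natural division).  `c ∈ Ioc C1 (C1 + C2)` iff `P < a c` and `2 a c ≤ 3 P` (`Nat.div_lt_iff_lt_mul`,
`Nat.le_div_iff_mul_le`).  `C2 > 3P/(2a) - 1 - P/a = P/(2a) - 1`, and `P/(4a) ≥ P/(16Y) ≥ 120` by `h5` (`log P ≥ 0`), so
`C2 ≥ P/(4a) ≥ P/(16 Y) ≥ 40 (3 + log P)`.  Also `D1 > R/(2a²) - 1 ≥ R/(4a²) ≥ R/(64Y²) ≥ 40 (3 + log P)` by `h6`.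
 `cop` applies: for `c ≤ C1 + C2`, `N = b² + a c < a² + 3P/2 ≤ 16 Y² + 3P/2 < 2P` (`h1`), and
`(C2 + 1)² ≥ (P/(2a))² ≥ (P/(8Y))² = P²/(64Y²) ≥ 129 P / 64 ≥ 2 P` (`C2 + 1 ≥ P / (2a)` as real numbers);
`hlog`: with `M = 40 (3 + log P)`, `C2, D1 ≥ M`, `log C2 ≤ log P`: `4 (C2 + D1)(2 + log C2) ≤ 8 C2 D1 (2 + log P) / M`
and `4 C2 ≤ 4 C2 D1 / M`, together `≤ 8 C2 D1 (3 + log P) / M = C2 D1 / 5`.
 `tq ≤ R`: `2 b³ + 3 a b c ≤ 2 (4Y)³ + 3 (4 Y) (3 P / 2) = 128 Y³ + 18 Y P ≤ R / 2` by `h3`, and `a² d ≤ a² D1 ≤ R / 2`.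
 So for each `(a, b)` there are at least `C2 D1 / 4 ≥ (P/(16Y)) (R/(64Y²)) / 4 = P R / (4096 Y³)` pairs `(c, d)`, for each `a` there
are `a - 1 ≥ Y` values of `b`; take for `S` the union over `a` in the filter, `b ∈ Icc 1 (a - 1)` (a `Finset.sigma`/`biUnion`
of products mapped to quadruples, disjoint since `a, b` are coordinates), or filter one big box and count its fibres over
`(a, b)` (`Finset.card_eq_sum_card_fiberwise`).
-/

set_option autoImplicit false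

namespace Pool.Agent.FML

open NumberField Pool.Agent.FTA nonZeroDivisors

/-- the box of the pairs `(c, d)` -/
private def CnM_box (P R a b : ℕ) : Finset (ℕ × ℕ) :=
  ((Finset.Ioc (P / a) (P / a + (3 * P / (2 * a) - P / a))) ×ˢ
    (Finset.Icc 1 (R / (2 * a ^ 2)))).filter
    (fun x => Nat.Coprime (Nq a b x.1) (tq a b x.1 x.2))

private theorem CnM_add (P a : ℕ) (ha : 0 < a) :
    P / a + (3 * P / (2 * a) - P / a) = 3 * P / (2 * a) := by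
  apply Nat.add_sub_cancel'
  rw [Nat.le_div_iff_mul_le (by omega)]
  have := Nat.div_mul_le_self P a
  nlinarith

private theorem CnM_C2 (P a : ℕ) (ha : 0 < a) :
    P < (3 * P / (2 * a) - P / a + 1) * (2 * a) := by
  have h1 := CnM_add P a ha
  have h2 := Nat.div_mul_le_self P a
  have h3 := Nat.lt_mul_div_succ (3 * P) (b := 2 * a) (by omega)
  rw [← h1] at h3
  nlinarith

private theorem CnM_D1 (R a : ℕ) (ha : 0 < a) :
    R < (R / (2 * a ^ 2) + 1) * (2 * a ^ 2) := by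
  have h3 := Nat.lt_mul_div_succ R (b := 2 * a ^ 2) (by positivity)
  rw [mul_comm] at h3
  exact h3

/-- the points of the box -/
private theorem CnM_isQ (P Y R a b : ℕ)
    (h3 : 256 * Y ^ 3 + 36 * (Y * P) ≤ R) (ha : a.Prime) (hYa : Y < a) (ha4 : a ≤ 4 * Y)
    (hb : 1 ≤ b) (hba : b < a) (x : ℕ × ℕ) (hx : x ∈ CnM_box P R a b) :
    IsQ P Y R a b x.1 x.2 := by
  unfold CnM_box at hx
  rw [Finset.mem_filter, Finset.mem_product, Finset.mem_Ioc, Finset.mem_Icc,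
    CnM_add P a ha.pos] at hx
  obtain ⟨⟨⟨hc1, hc2⟩, hd1, hd2⟩, hco⟩ := hx
  obtain ⟨c, d⟩ := x
  simp only at hc1 hc2 hd1 hd2 hco ⊢
  have hc3 : P < c * a := (Nat.div_lt_iff_lt_mul ha.pos).1 hc1
  have hc4 : c * (2 * a) ≤ 3 * P := (Nat.le_div_iff_mul_le (by have := ha.pos; omega)).1 hc2
  have hd3 : d * (2 * a ^ 2) ≤ R := (Nat.le_div_iff_mul_le (by have := ha.pos; positivity)).1 hd2
  refine ⟨ha, hYa, ha4, hb, hba, by rw [mul_comm]; exact hc3, ?_, hd1, ?_, hco⟩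
  · calc 2 * (a * c) = c * (2 * a) := by ring
      _ ≤ 3 * P := hc4
  · have hb4 : b ≤ 4 * Y := by omega
    have e1 : 2 * b ^ 3 ≤ 128 * Y ^ 3 := by
      calc 2 * b ^ 3 ≤ 2 * (4 * Y) ^ 3 := Nat.mul_le_mul_left _ (Nat.pow_le_pow_left hb4 3)
        _ = 128 * Y ^ 3 := by ring
    have e2 : 2 * (3 * a * b * c) ≤ 36 * (Y * P) := by
      calc 2 * (3 * a * b * c) = (3 * b) * (c * (2 * a)) := by ring
        _ ≤ (3 * (4 * Y)) * (3 * P) := Nat.mul_le_mul (Nat.mul_le_mul_left _ hb4) hc4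
        _ = 36 * (Y * P) := by ring
    have e3 : 2 * (a ^ 2 * d) ≤ R := by
      calc 2 * (a ^ 2 * d) = d * (2 * a ^ 2) := by ring
        _ ≤ R := hd3
    unfold tq
    omega

/-- the number of the points of the box -/
private theorem CnM_one (P Y R a b : ℕ) (hY : 2 ≤ Y) (h1 : 129 * Y ^ 2 ≤ P)
    (h5 : (16 * Y : ℝ) * (40 * (3 + Real.log P)) ≤ P)
    (h6 : (64 * (Y : ℝ) ^ 2) * (40 * (3 + Real.log P)) ≤ R)
    (ha : a.Prime) (ha4 : a ≤ 4 * Y)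
    (hb : 1 ≤ b) (hba : b < a) :
    (P : ℝ) * R ≤ 4096 * (Y : ℝ) ^ 3 * ((CnM_box P R a b).card : ℝ) := by
  have ha0 := ha.pos
  have q1 := CnM_C2 P a ha0
  have q2 := CnM_D1 R a ha0
  have hadd := CnM_add P a ha0
  unfold CnM_box
  obtain ⟨C2, hC2⟩ : ∃ C2, C2 = 3 * P / (2 * a) - P / a := ⟨_, rfl⟩
  obtain ⟨D1, hD1⟩ : ∃ D1, D1 = R / (2 * a ^ 2) := ⟨_, rfl⟩
  rw [← hC2] at hadd q1 ⊢
  rw [← hD1] at q2 ⊢
  have hY0 : (2 : ℝ) ≤ Y := by exact_mod_cast hY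
  have hP1 : 1 ≤ P := by nlinarith
  have hP1' : (1 : ℝ) ≤ P := by exact_mod_cast hP1
  have hlog : 0 ≤ Real.log P := Real.log_nonneg hP1'
  obtain ⟨M, hM⟩ : ∃ M, M = 40 * (3 + Real.log P) := ⟨_, rfl⟩
  rw [← hM] at h5 h6
  have hM120 : 120 ≤ M := by rw [hM]; linarith
  -- natural number inequalities
  have r1 : P < (C2 + 1) * (8 * Y) :=
    lt_of_lt_of_le q1 (Nat.mul_le_mul_left _ (by omega))
  have r2 : R < (D1 + 1) * (32 * Y ^ 2) := by
    refine lt_of_lt_of_le q2 (Nat.mul_le_mul_left _ ?_)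
    calc 2 * a ^ 2 ≤ 2 * (4 * Y) ^ 2 := Nat.mul_le_mul_left _ (Nat.pow_le_pow_left ha4 2)
      _ = 32 * Y ^ 2 := by ring
  have r1' : (P : ℝ) < ((C2 : ℝ) + 1) * (8 * Y) := by exact_mod_cast r1
  have r2' : (R : ℝ) < ((D1 : ℝ) + 1) * (32 * (Y : ℝ) ^ 2) := by exact_mod_cast r2
  have hYp : (0 : ℝ) < Y := by linarith
  have hY2p : (0 : ℝ) < (Y : ℝ) ^ 2 := by positivity
  have s1 : 2 * M < (C2 : ℝ) + 1 := by
    by_contra hc
    push Not at hc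
    have := mul_le_mul_of_nonneg_right hc (by linarith : (0 : ℝ) ≤ 8 * Y)
    nlinarith
  have s2 : 2 * M < (D1 : ℝ) + 1 := by
    by_contra hc
    push Not at hc
    have := mul_le_mul_of_nonneg_right hc (by positivity : (0 : ℝ) ≤ 32 * (Y : ℝ) ^ 2)
    nlinarith
  have t1 : M ≤ C2 := by linarith
  have t2 : M ≤ D1 := by linarith
  have hC1 : 1 ≤ C2 := by
    have : (1 : ℝ) ≤ C2 := by linarith
    exact_mod_cast this
  -- the hypothesis of `cop`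
  have hN : ∀ c ≤ P / a + C2, Nq a b c < (C2 + 1) ^ 2 := by
    intro c hc
    rw [hadd] at hc
    have hc4 : c * (2 * a) ≤ 3 * P := (Nat.le_div_iff_mul_le (by omega)).1 hc
    have u1 : b ^ 2 < a ^ 2 := Nat.pow_lt_pow_left hba (by norm_num)
    have u2 : a ^ 2 ≤ 16 * Y ^ 2 := by
      calc a ^ 2 ≤ (4 * Y) ^ 2 := Nat.pow_le_pow_left ha4 2
        _ = 16 * Y ^ 2 := by ring
    have u3 : Nq a b c < 2 * P := by
      unfold Nq
      have : 2 * (a * c) = c * (2 * a) := by ring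
      omega
    have u4 : 2 * P ≤ (C2 + 1) ^ 2 := by
      by_contra hcon
      push Not at hcon
      have v1 := Nat.mul_self_lt_mul_self r1
      have v2 : (C2 + 1) * (8 * Y) * ((C2 + 1) * (8 * Y)) = 64 * Y ^ 2 * (C2 + 1) ^ 2 := by ring
      have v3 : 64 * Y ^ 2 * (C2 + 1) ^ 2 ≤ 64 * Y ^ 2 * (2 * P) :=
        Nat.mul_le_mul_left _ hcon.le
      have v4 : 64 * Y ^ 2 * (2 * P) ≤ 129 * Y ^ 2 * P := by
        have : 64 * Y ^ 2 * (2 * P) = 128 * (Y ^ 2 * P) := by ring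
        have : 129 * Y ^ 2 * P = 129 * (Y ^ 2 * P) := by ring
        omega
      have v5 : 129 * Y ^ 2 * P ≤ P * P := Nat.mul_le_mul_right _ h1
      omega
    omega
  have hCP : C2 ≤ P := by
    have : 3 * P / (2 * a) ≤ P := by
      apply Nat.div_le_of_le_mul
      have := ha.two_le
      nlinarith
    rw [hC2]
    exact (Nat.sub_le _ _).trans this
  have hlogC : Real.log C2 ≤ Real.log P :=
    Real.log_le_log (by exact_mod_cast hC1) (by exact_mod_cast hCP)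
  have hC0 : (0 : ℝ) ≤ C2 := Nat.cast_nonneg _
  have hD0 : (0 : ℝ) ≤ D1 := Nat.cast_nonneg _
  have hl : 4 * (((C2 : ℝ) + D1) * (2 + Real.log C2) + C2) ≤ (C2 : ℝ) * D1 := by
    have w1 : ((C2 : ℝ) + D1) * (2 + Real.log C2) ≤ ((C2 : ℝ) + D1) * (2 + Real.log P) :=
      mul_le_mul_of_nonneg_left (by linarith) (by linarith)
    have w2 : (C2 : ℝ) * M ≤ C2 * D1 := mul_le_mul_of_nonneg_left t2 hC0
    have w3 : (D1 : ℝ) * M ≤ D1 * C2 := mul_le_mul_of_nonneg_left t1 hD0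
    have w4 : ((C2 : ℝ) + D1) * (2 + Real.log P) + C2 ≤ ((C2 : ℝ) + D1) * (3 + Real.log P) := by
      nlinarith
    have w5 : 40 * (((C2 : ℝ) + D1) * (3 + Real.log P)) = C2 * M + D1 * M := by rw [hM]; ring
    have w6 : (0 : ℝ) ≤ C2 * D1 := mul_nonneg hC0 hD0
    nlinarith
  have key := cop a b (P / a) C2 D1 ha hb hba hC1 hN hl
  have x1 : (P : ℝ) ≤ C2 * (16 * Y) := by
    have : (1 : ℝ) ≤ C2 := by exact_mod_cast hC1
    nlinarith
  have x2 : (R : ℝ) ≤ D1 * (64 * (Y : ℝ) ^ 2) := by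
    have : (1 : ℝ) ≤ D1 := by linarith
    nlinarith
  have x3 : (P : ℝ) * R ≤ (C2 * (16 * Y)) * (D1 * (64 * (Y : ℝ) ^ 2)) :=
    mul_le_mul x1 x2 (Nat.cast_nonneg _) (by positivity)
  have x4 : (C2 * (16 * Y)) * (D1 * (64 * (Y : ℝ) ^ 2)) =
      4096 * (Y : ℝ) ^ 3 * ((C2 : ℝ) * D1 / 4) := by ring
  rw [x4] at x3
  exact x3.trans (mul_le_mul_of_nonneg_left key (by positivity))

theorem cnM (P Y R : ℕ) (hY : 2 ≤ Y) (h1 : 129 * Y ^ 2 ≤ P)
    (h3 : 256 * Y ^ 3 + 36 * (Y * P) ≤ R)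
    (h5 : (16 * Y : ℝ) * (40 * (3 + Real.log P)) ≤ P)
    (h6 : (64 * (Y : ℝ) ^ 2) * (40 * (3 + Real.log P)) ≤ R) :
    ∃ S : Finset (ℕ × ℕ × ℕ × ℕ), (∀ q ∈ S, IsQ P Y R q.1 q.2.1 q.2.2.1 q.2.2.2) ∧
      (((Finset.Ioc Y (4 * Y)).filter Nat.Prime).card : ℝ) * ((P : ℝ) * R) ≤
        4096 * (Y : ℝ) ^ 2 * (S.card : ℝ) := by
  classical
  obtain ⟨A, hA⟩ : ∃ A, A = (Finset.Ioc Y (4 * Y)).filter Nat.Prime := ⟨_, rfl⟩
  obtain ⟨Z, hZ⟩ : ∃ Z : Finset ((_ : ℕ) × ℕ), Z = A.sigma (fun a => Finset.Icc 1 (a - 1)) :=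
    ⟨_, rfl⟩
  have hmA : ∀ a ∈ A, a.Prime ∧ Y < a ∧ a ≤ 4 * Y := by
    intro a ha
    rw [hA, Finset.mem_filter, Finset.mem_Ioc] at ha
    exact ⟨ha.2, ha.1.1, ha.1.2⟩
  have hmZ : ∀ p ∈ Z, p.1.Prime ∧ Y < p.1 ∧ p.1 ≤ 4 * Y ∧ 1 ≤ p.2 ∧ p.2 < p.1 := by
    intro p hp
    rw [hZ, Finset.mem_sigma, Finset.mem_Icc] at hp
    obtain ⟨k1, k2, k3⟩ := hmA _ hp.1
    have := k1.pos
    exact ⟨k1, k2, k3, hp.2.1, by omega⟩
  refine ⟨Z.biUnion (fun p => (CnM_box P R p.1 p.2).image (fun x => (p.1, p.2, x.1, x.2))),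
    ?_, ?_⟩
  · intro q hq
    rw [Finset.mem_biUnion] at hq
    obtain ⟨p, hp, hq⟩ := hq
    rw [Finset.mem_image] at hq
    obtain ⟨x, hx, rfl⟩ := hq
    obtain ⟨k1, k2, k3, k4, k5⟩ := hmZ p hp
    exact CnM_isQ P Y R p.1 p.2 h3 k1 k2 k3 k4 k5 x hx
  · rw [Finset.card_biUnion]
    · have hcard : ∀ p : (_ : ℕ) × ℕ, ((CnM_box P R p.1 p.2).image
          (fun x => (p.1, p.2, x.1, x.2))).card = (CnM_box P R p.1 p.2).card := by
        intro p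
        apply Finset.card_image_of_injective
        intro x y hxy
        simp only [Prod.mk.injEq, true_and] at hxy
        exact Prod.ext hxy.1 hxy.2
      simp only [hcard]
      rw [Nat.cast_sum, Finset.mul_sum]
      have hYp : (0 : ℝ) < Y := by exact_mod_cast (by omega : 0 < Y)
      have step : ∀ p ∈ Z, (P : ℝ) * R / Y ≤
          4096 * (Y : ℝ) ^ 2 * ((CnM_box P R p.1 p.2).card : ℝ) := by
        intro p hp
        obtain ⟨k1, k2, k3, k4, k5⟩ := hmZ p hp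
        rw [div_le_iff₀ hYp]
        have := CnM_one P Y R p.1 p.2 hY h1 h5 h6 k1 k3 k4 k5
        calc (P : ℝ) * R ≤ 4096 * (Y : ℝ) ^ 3 * ((CnM_box P R p.1 p.2).card : ℝ) := this
          _ = 4096 * (Y : ℝ) ^ 2 * ((CnM_box P R p.1 p.2).card : ℝ) * Y := by ring
      refine le_trans ?_ (Finset.sum_le_sum step)
      rw [Finset.sum_const, nsmul_eq_mul]
      have hZc : A.card * Y ≤ Z.card := by
        rw [hZ, Finset.card_sigma]
        calc A.card * Y = ∑ a ∈ A, Y := by rw [Finset.sum_const, smul_eq_mul]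
          _ ≤ ∑ a ∈ A, (Finset.Icc 1 (a - 1)).card := by
            apply Finset.sum_le_sum
            intro a ha
            obtain ⟨_, k2, _⟩ := hmA a ha
            rw [Nat.card_Icc]
            omega
      have hZc' : (A.card : ℝ) * Y ≤ Z.card := by exact_mod_cast hZc
      rw [← hA]
      calc (A.card : ℝ) * ((P : ℝ) * R) = ((A.card : ℝ) * Y) * ((P : ℝ) * R / Y) := by
            field_simp
        _ ≤ (Z.card : ℝ) * ((P : ℝ) * R / Y) :=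
            mul_le_mul_of_nonneg_right hZc' (by positivity)
    · intro p hp p' hp' hne
      rw [Function.onFun, Finset.disjoint_left]
      intro q hq hq'
      rw [Finset.mem_image] at hq hq'
      obtain ⟨x, _, rfl⟩ := hq
      obtain ⟨y, _, hy⟩ := hq'
      simp only [Prod.mk.injEq] at hy
      apply hne
      obtain ⟨p1, p2⟩ := p
      obtain ⟨p1', p2'⟩ := p'
      simp only at hy
      rw [hy.1, hy.2.1]

end Pool.Agent.FML
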