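import Pool.Agent.FML.DefsM

/-!
# FML/PaM (size 4)

The parameters.  With `w = X ^ (1/4)`, `z = X ^ (η/2)`, `a = √P`: `a ≤ w / z`, `a ^ 2 ≥ w ^ 2 / (2 z ^ 2)`,
`z ^ 20 ≤ w`, and `Y` is between `12 a ^ 3 / w ^ 2` and `13 a ^ 3 / w ^ 2`.
-/

set_option autoImplicit false

namespace Pool.Agent.FML

open NumberField Pool.Agent.FTA nonZeroDivisors Filter

private theorem paM_log (c s : ℝ) (hc : 0 < c) (hs : 0 < s) :
    ∀ᶠ x : ℝ in atTop, c * Real.log x ≤ x ^ s := by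
  have h := (isLittleO_log_rpow_atTop hs).bound (c := 1 / c) (by positivity)
  filter_upwards [h, eventually_ge_atTop (1 : ℝ)] with x hx h1
  have h0 : 0 ≤ Real.log x := Real.log_nonneg h1
  have h2 : 0 ≤ x ^ s := Real.rpow_nonneg (by linarith) s
  rw [Real.norm_eq_abs, Real.norm_eq_abs, abs_of_nonneg h0, abs_of_nonneg h2] at hx
  calc c * Real.log x ≤ c * (1 / c * x ^ s) := mul_le_mul_of_nonneg_left hx hc.le
    _ = x ^ s := by field_simp

theorem paM (η : ℝ) (h0 : 0 < η) (h1 : η ≤ 1 / 40) (Y0 : ℕ) :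
    ∃ X0 : ℕ, ∀ X : ℕ, X0 ≤ X → ∃ P Y R : ℕ, IsP η X P Y R ∧ Y0 ≤ Y := by
  have e1 : ∀ᶠ x : ℝ in atTop, max 32 (4 * (Y0 : ℝ) + 8) ≤ x ^ (η / 2) :=
    (tendsto_rpow_atTop (by positivity)).eventually_ge_atTop _
  have e2 := paM_log (21632 * 40 * 2) (1 / 4) (by norm_num) (by norm_num)
  have e3 := paM_log 425984 (η / 2) (by norm_num) (by positivity)
  have e4 := eventually_ge_atTop (Real.exp 3)
  obtain ⟨X1, hX1⟩ := eventually_atTop.1 (e1.and (e2.and (e3.and e4)))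
  refine ⟨⌈X1⌉₊, fun X hX => ?_⟩
  have hXr : X1 ≤ (X : ℝ) := (Nat.le_ceil _).trans (by exact_mod_cast hX)
  obtain ⟨c1, c2, c3, c4⟩ := hX1 _ hXr
  obtain ⟨x, hx⟩ : ∃ x : ℝ, x = (X : ℝ) := ⟨_, rfl⟩
  rw [← hx] at c1 c2 c3 c4
  have hx0 : 0 < x := lt_of_lt_of_le (Real.exp_pos 3) c4
  have hx1 : 1 ≤ x := le_trans (Real.one_le_exp (by norm_num)) c4
  have hlog3 : 3 ≤ Real.log x := by
    rw [Real.le_log_iff_exp_le hx0]; exact c4
  obtain ⟨w, hw⟩ : ∃ w : ℝ, w = x ^ (1 / 4 : ℝ) := ⟨_, rfl⟩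
  obtain ⟨z, hz⟩ : ∃ z : ℝ, z = x ^ (η / 2) := ⟨_, rfl⟩
  rw [← hw] at c2
  rw [← hz] at c1 c3
  have hz32 : 32 ≤ z := (le_max_left _ _).trans c1
  have hzY : 4 * (Y0 : ℝ) + 8 ≤ z := (le_max_right _ _).trans c1
  have hz0 : 0 < z := by linarith
  have hz1 : 1 ≤ z := by linarith
  have hw0 : 0 < w := by rw [hw]; exact Real.rpow_pos_of_pos hx0 _
  have hw4 : w ^ 4 = x := by
    rw [hw, ← Real.rpow_natCast, ← Real.rpow_mul hx0.le]
    norm_num
  have hz20 : z ^ 20 ≤ w := by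
    rw [hw, hz, ← Real.rpow_natCast, ← Real.rpow_mul hx0.le]
    apply Real.rpow_le_rpow_of_exponent_le hx1
    push_cast
    linarith
  have hy : x ^ (1 / 2 - η) = w ^ 2 / z ^ 2 := by
    rw [hw, hz, ← Real.rpow_natCast, ← Real.rpow_natCast, ← Real.rpow_mul hx0.le,
      ← Real.rpow_mul hx0.le, ← Real.rpow_sub hx0]
    congr 1
    push_cast
    ring
  have hx3 : x ^ (1 - 3 * η / 2) = w ^ 4 / z ^ 3 := by
    rw [hw, hz, ← Real.rpow_natCast, ← Real.rpow_natCast, ← Real.rpow_mul hx0.le,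
      ← Real.rpow_mul hx0.le, ← Real.rpow_sub hx0]
    congr 1
    push_cast
    ring
  have hzw : z ≤ w := by
    calc z = z ^ 1 := (pow_one z).symm
      _ ≤ z ^ 20 := pow_le_pow_right₀ hz1 (by norm_num)
      _ ≤ w := hz20
  have hw1 : 1 ≤ w := le_trans hz1 hzw
  -- the number `P`
  obtain ⟨P, hP⟩ : ∃ P : ℕ, P = ⌊w ^ 2 / z ^ 2⌋₊ := ⟨_, rfl⟩
  have hyn : 0 ≤ w ^ 2 / z ^ 2 := by positivity
  have hPle : (P : ℝ) ≤ w ^ 2 / z ^ 2 := by rw [hP]; exact Nat.floor_le hyn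
  have hy2 : 2 ≤ w ^ 2 / z ^ 2 := by
    rw [le_div_iff₀ (by positivity)]
    have h2 : z ^ 2 * z ^ 2 ≤ w ^ 2 := by
      have : z ^ 2 ≤ w := le_trans (pow_le_pow_right₀ hz1 (by norm_num)) hz20
      nlinarith
    have h3 : 2 ≤ z ^ 2 := by nlinarith
    nlinarith [pow_pos hz0 2]
  have hPge : w ^ 2 / z ^ 2 / 2 ≤ P := by
    have := Nat.lt_floor_add_one (w ^ 2 / z ^ 2)
    rw [← hP] at this
    linarith
  have hPpos : 0 < (P : ℝ) := by linarith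
  obtain ⟨a, ha⟩ : ∃ a : ℝ, a = √(P : ℝ) := ⟨_, rfl⟩
  have ha0 : 0 < a := by rw [ha]; exact Real.sqrt_pos.2 hPpos
  have ha2 : a ^ 2 = P := by rw [ha]; exact Real.sq_sqrt hPpos.le
  have hale : a ≤ w / z := by
    have : a ^ 2 ≤ (w / z) ^ 2 := by rw [ha2, div_pow]; exact hPle
    exact (pow_le_pow_iff_left₀ ha0.le (by positivity) (by norm_num)).1 this
  have hage : 2 * w / (3 * z) ≤ a := by
    have h2 : (2 * w / (3 * z)) ^ 2 ≤ a ^ 2 := by
      rw [ha2]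
      refine le_trans ?_ hPge
      rw [div_pow, div_div, div_le_div_iff₀ (by positivity) (by positivity)]
      nlinarith [mul_pos (pow_pos hw0 2) (pow_pos hz0 2)]
    exact (pow_le_pow_iff_left₀ (by positivity) ha0.le (by norm_num)).1 h2
  have hw3z : 3 * z ≤ w := by
    have h2 : z * z ≤ w := by
      calc z * z = z ^ 2 := by ring
        _ ≤ z ^ 20 := pow_le_pow_right₀ hz1 (by norm_num)
        _ ≤ w := hz20
    nlinarith
  have ha2' : 2 ≤ a := by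
    refine le_trans ?_ hage
    rw [le_div_iff₀ (by positivity)]
    linarith
  have haw : a ≤ w := le_trans hale (div_le_self hw0.le hz1)
  -- the number `R`
  obtain ⟨R, hR⟩ : ∃ R : ℕ, R = Nat.sqrt (P ^ 3) := ⟨_, rfl⟩
  have hR2 : R ^ 2 ≤ P ^ 3 := by rw [hR]; exact Nat.sqrt_le' _
  have hP3 : (a ^ 3) ^ 2 = (P : ℝ) ^ 3 := by rw [← ha2]; ring
  have hRge : a ^ 3 / 2 ≤ R := by
    have h2 : P ^ 3 < (R + 1) ^ 2 := by rw [hR]; exact Nat.lt_succ_sqrt' _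
    have h3 : (P : ℝ) ^ 3 < ((R : ℝ) + 1) ^ 2 := by exact_mod_cast h2
    rw [← hP3] at h3
    have h4 : a ^ 3 ≤ (R : ℝ) + 1 :=
      (pow_le_pow_iff_left₀ (by positivity) (by positivity) (by norm_num)).1 h3.le
    have h5 : 2 ≤ a ^ 3 := by nlinarith [pow_pos ha0 2]
    linarith
  -- the number `Y`
  obtain ⟨B, hB⟩ : ∃ B : ℝ, B = a ^ 3 / w ^ 2 := ⟨_, rfl⟩
  have hBw : B * w ^ 2 = a ^ 3 := by rw [hB]; field_simp
  have hBz : z / 4 ≤ B := by
    rw [hB, div_le_div_iff₀ (by norm_num) (by positivity)]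
    have h2 : (2 * w / (3 * z)) ^ 3 ≤ a ^ 3 := pow_le_pow_left₀ (by positivity) hage 3
    have h3 : z * w ^ 2 ≤ (2 * w / (3 * z)) ^ 3 * 4 := by
      rw [div_pow, div_mul_eq_mul_div, le_div_iff₀ (by positivity)]
      have h4 : z ^ 4 ≤ w := le_trans (pow_le_pow_right₀ hz1 (by norm_num)) hz20
      have h5 : 0 < w ^ 2 := by positivity
      have h6 : z ^ 4 * w ^ 2 ≤ w * w ^ 2 := mul_le_mul_of_nonneg_right h4 h5.le
      have h7 : 0 < w * w ^ 2 := by positivity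
      nlinarith
    linarith
  have hB8 : 8 ≤ B := by linarith
  have hB0 : 0 < B := by linarith
  have hBa : B ≤ a / z ^ 2 := by
    rw [hB, div_le_div_iff₀ (by positivity) (by positivity)]
    have h2 : a ^ 2 * z ^ 2 ≤ w ^ 2 := by
      rw [ha2]
      exact (le_div_iff₀ (by positivity)).1 hPle
    nlinarith
  obtain ⟨Y, hY⟩ : ∃ Y : ℕ, Y = ⌈12 * B⌉₊ := ⟨_, rfl⟩
  have hYge : 12 * B ≤ Y := by rw [hY]; exact Nat.le_ceil _
  have hYle : (Y : ℝ) ≤ 13 * B := by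
    have := Nat.ceil_lt_add_one (a := 12 * B) (by positivity)
    rw [← hY] at this
    linarith
  have hYpos : 0 < (Y : ℝ) := by linarith
  have hz2 : 1024 ≤ z ^ 2 := by nlinarith
  have hYa : (Y : ℝ) ≤ a / 78 := by
    have h2 : a / z ^ 2 ≤ a / 1024 := div_le_div_of_nonneg_left ha0.le (by norm_num) hz2
    linarith
  have hYsq : 129 * (Y : ℝ) ^ 2 ≤ a ^ 2 := by
    have h2 : (Y : ℝ) ^ 2 ≤ (a / 78) ^ 2 := pow_le_pow_left₀ hYpos.le hYa 2
    have h3 : (a / 78) ^ 2 = a ^ 2 / 6084 := by ring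
    have h4 : 0 < a ^ 2 := by positivity
    rw [h3] at h2
    linarith
  -- logarithms
  have hwx : w ≤ x := by
    rw [← hw4]
    calc w = w ^ 1 := (pow_one w).symm
      _ ≤ w ^ 4 := pow_le_pow_right₀ hw1 (by norm_num)
  have hPx : (P : ℝ) ≤ x := by
    rw [← ha2, ← hw4]
    calc a ^ 2 ≤ w ^ 2 := pow_le_pow_left₀ ha0.le haw 2
      _ ≤ w ^ 4 := pow_le_pow_right₀ hw1 (by norm_num)
  have hlogP : Real.log P ≤ Real.log x := Real.log_le_log hPpos hPx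
  have hlogP0 : 0 ≤ Real.log P := Real.log_nonneg (by linarith)
  have hlogY : Real.log Y ≤ Real.log x := Real.log_le_log hYpos (by linarith)
  have hlogY0 : 0 ≤ Real.log Y := Real.log_nonneg (by linarith)
  obtain ⟨L, hL⟩ : ∃ L : ℝ, L = 40 * (3 + Real.log P) := ⟨_, rfl⟩
  have hL0 : 0 ≤ L := by rw [hL]; positivity
  have hLw : 21632 * L ≤ w := by rw [hL]; linarith
  have ha3 : 0 < a ^ 3 := by positivity
  have hYw : (Y : ℝ) * w ^ 2 ≤ 13 * a ^ 3 := by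
    rw [← hBw]
    have := mul_le_mul_of_nonneg_right hYle (pow_pos hw0 2).le
    linarith
  have hYw' : 12 * a ^ 3 ≤ (Y : ℝ) * w ^ 2 := by
    rw [← hBw]
    have := mul_le_mul_of_nonneg_right hYge (pow_pos hw0 2).le
    linarith
  refine ⟨P, Y, R, ⟨?_, ?_, hR2, ?_, ?_, ?_, ?_, ?_, ?_, ?_⟩, ?_⟩
  · -- hY
    have : (2 : ℝ) ≤ Y := by linarith
    exact_mod_cast this
  · -- h1
    have : (129 : ℝ) * (Y : ℝ) ^ 2 ≤ P := by rw [← ha2]; exact hYsq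
    exact_mod_cast this
  · -- h3
    have h2 : (256 : ℝ) * (Y : ℝ) ^ 3 + 36 * (Y * P) ≤ R := by
      rw [← ha2]
      have h3 : (Y : ℝ) * (129 * (Y : ℝ) ^ 2) ≤ Y * a ^ 2 :=
        mul_le_mul_of_nonneg_left hYsq hYpos.le
      have h4 : (Y : ℝ) * a ^ 2 ≤ a / 78 * a ^ 2 :=
        mul_le_mul_of_nonneg_right hYa (by positivity)
      have h5 : a / 78 * a ^ 2 = a ^ 3 / 78 := by ring
      have h6 : (Y : ℝ) * (129 * (Y : ℝ) ^ 2) = 129 * (Y : ℝ) ^ 3 := by ring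
      rw [h6] at h3
      rw [h5] at h4
      linarith
    exact_mod_cast h2
  · -- h5
    rw [← hL, ← ha2]
    have h2 : 208 * L ≤ w := by linarith
    have h3 : (16 * (Y : ℝ) * L) * w ^ 2 ≤ a ^ 2 * w ^ 2 := by
      have h4 : (Y : ℝ) * w ^ 2 * (16 * L) ≤ 13 * a ^ 3 * (16 * L) :=
        mul_le_mul_of_nonneg_right hYw (by positivity)
      have h5 : a ^ 3 * (208 * L) ≤ a ^ 3 * w := mul_le_mul_of_nonneg_left h2 ha3.le
      have h6 : a ^ 3 * w ≤ a ^ 2 * w ^ 2 := by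
        have : a ^ 2 * w * a ≤ a ^ 2 * w * w := mul_le_mul_of_nonneg_left haw (by positivity)
        nlinarith
      linarith
    exact le_of_mul_le_mul_right h3 (by positivity)
  · -- h6
    rw [← hL]
    refine le_trans ?_ hRge
    have h3 : (64 * (Y : ℝ) ^ 2 * L) * w ^ 4 ≤ a ^ 3 / 2 * w ^ 4 := by
      have h4 : ((Y : ℝ) * w ^ 2) ^ 2 ≤ (13 * a ^ 3) ^ 2 :=
        pow_le_pow_left₀ (by positivity) hYw 2
      have h5 : ((Y : ℝ) * w ^ 2) ^ 2 * (64 * L) ≤ (13 * a ^ 3) ^ 2 * (64 * L) :=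
        mul_le_mul_of_nonneg_right h4 (by positivity)
      have h6 : a ^ 3 ≤ w ^ 3 := pow_le_pow_left₀ ha0.le haw 3
      have h7 : a ^ 3 * (21632 * L) ≤ w ^ 3 * w :=
        mul_le_mul h6 hLw (by positivity) (by positivity)
      have h8 : a ^ 3 * (a ^ 3 * (21632 * L)) ≤ a ^ 3 * (w ^ 3 * w) :=
        mul_le_mul_of_nonneg_left h7 ha3.le
      nlinarith
    exact le_of_mul_le_mul_right h3 (by positivity)
  · -- h7
    have h2 : (128 : ℝ) * (P : ℝ) ^ 3 < (Y : ℝ) ^ 8 := by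
      rw [← hP3]
      have h3 : (12 * a ^ 3) ^ 8 ≤ ((Y : ℝ) * w ^ 2) ^ 8 := pow_le_pow_left₀ (by positivity) hYw' 8
      have h4 : (2 * w / (3 * z)) ^ 18 ≤ a ^ 18 := pow_le_pow_left₀ (by positivity) hage 18
      have h5 : z ^ 18 ≤ w := le_trans (pow_le_pow_right₀ hz1 (by norm_num)) hz20
      have h6 : (2 / 3 : ℝ) ^ 18 * w ^ 17 ≤ a ^ 18 := by
        refine le_trans ?_ h4
        have h7 : (2 * w / (3 * z)) ^ 18 = (2 / 3 : ℝ) ^ 18 * (w ^ 18 / z ^ 18) := by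
          rw [← div_pow, ← mul_pow]
          congr 1
          field_simp
        rw [h7]
        apply mul_le_mul_of_nonneg_left _ (by positivity)
        rw [le_div_iff₀ (by positivity)]
        calc w ^ 17 * z ^ 18 ≤ w ^ 17 * w := mul_le_mul_of_nonneg_left h5 (by positivity)
          _ = w ^ 18 := by ring
      have h8 : w ^ 16 ≤ w ^ 17 := pow_le_pow_right₀ hw1 (by norm_num)
      have h9 : 128 * w ^ 16 < (12 : ℝ) ^ 8 * a ^ 18 := by
        have h10 : (12 : ℝ) ^ 8 * ((2 / 3 : ℝ) ^ 18 * w ^ 17) ≤ (12 : ℝ) ^ 8 * a ^ 18 :=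
          mul_le_mul_of_nonneg_left h6 (by positivity)
        have h11 : (200 : ℝ) ≤ (12 : ℝ) ^ 8 * (2 / 3 : ℝ) ^ 18 := by norm_num
        have h12 : 0 < w ^ 16 := by positivity
        have h13 : (200 : ℝ) * w ^ 17 ≤ (12 : ℝ) ^ 8 * (2 / 3 : ℝ) ^ 18 * w ^ 17 :=
          mul_le_mul_of_nonneg_right h11 (by positivity)
        nlinarith
      have h14 : 128 * (a ^ 3) ^ 2 * w ^ 16 < (Y : ℝ) ^ 8 * w ^ 16 := by
        have h15 : (128 * w ^ 16) * a ^ 6 < ((12 : ℝ) ^ 8 * a ^ 18) * a ^ 6 :=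
          mul_lt_mul_of_pos_right h9 (by positivity)
        have h16 : (12 * a ^ 3) ^ 8 = ((12 : ℝ) ^ 8 * a ^ 18) * a ^ 6 := by ring
        have h17 : ((Y : ℝ) * w ^ 2) ^ 8 = (Y : ℝ) ^ 8 * w ^ 16 := by ring
        have h18 : 128 * (a ^ 3) ^ 2 * w ^ 16 = (128 * w ^ 16) * a ^ 6 := by ring
        rw [h18]
        rw [h16, h17] at h3
        linarith
      exact lt_of_mul_lt_mul_right h14 (by positivity)
    exact_mod_cast h2
  · -- h8
    rw [← hx, hx3, ← ha2]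
    have h2 : (w ^ 2 / z ^ 2 / 2) ≤ a ^ 2 := by rw [ha2]; exact hPge
    have h3 : a ^ 2 * (a ^ 3 / 2) ≤ a ^ 2 * R := mul_le_mul_of_nonneg_left hRge (by positivity)
    refine le_trans ?_ h3
    have h4 : (Y : ℝ) * Real.log Y ≤ 13 * B * Real.log x :=
      mul_le_mul hYle hlogY hlogY0 (by positivity)
    have h5 : w ^ 4 / z ^ 3 * (8192 * Y * Real.log Y) ≤
        w ^ 4 / z ^ 3 * (8192 * (13 * B * Real.log x)) := by
      apply mul_le_mul_of_nonneg_left _ (by positivity)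
      linarith
    refine le_trans h5 ?_
    have h6 : w ^ 4 / z ^ 3 * (8192 * (13 * B * Real.log x)) =
        a ^ 3 * (w ^ 2 / z ^ 2) / 4 * (425984 * Real.log x / z) := by
      rw [hB]
      field_simp
      ring
    rw [h6]
    have h7 : 425984 * Real.log x / z ≤ 1 := by
      rw [div_le_one hz0]; exact c3
    have h8 : 0 ≤ a ^ 3 * (w ^ 2 / z ^ 2) / 4 := by positivity
    have h9 : a ^ 3 * (w ^ 2 / z ^ 2) / 4 * (425984 * Real.log x / z) ≤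
        a ^ 3 * (w ^ 2 / z ^ 2) / 4 * 1 := mul_le_mul_of_nonneg_left h7 h8
    have h10 : a ^ 3 * (w ^ 2 / z ^ 2 / 2) ≤ a ^ 3 * a ^ 2 := mul_le_mul_of_nonneg_left h2 ha3.le
    nlinarith
  · -- h9
    rw [← hx, hy]
    exact hPle
  · -- h10
    have h2 : (128 : ℝ) * (P : ℝ) ^ 3 ≤ (X : ℝ) * (Y : ℝ) ^ 2 := by
      rw [← hx, ← hw4, ← hP3]
      have h3 : (12 * a ^ 3) ^ 2 ≤ ((Y : ℝ) * w ^ 2) ^ 2 := pow_le_pow_left₀ (by positivity) hYw' 2
      have h4 : 0 ≤ (a ^ 3) ^ 2 := by positivity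
      nlinarith
    exact_mod_cast h2
  · -- Y0
    have : (Y0 : ℝ) ≤ Y := by linarith
    exact_mod_cast this

end Pool.Agent.FML
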