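import Pool.Agent.FTA.DefsC
import Mathlib.NumberTheory.Chebyshev

/-!
# FML/PrM (size 3)

The number of primes in `(Y, 4 Y]`.  PROOF.  `θ(4Y) - θ(Y)` is the sum of `log p` over the primes `p` in `(Y, 4Y]` (from
the definition of `Chebyshev.theta`), so it is at most `log (4 Y)` times their number, and `log (4 Y) ≤ 2 log Y` for `Y ≥ 4`.
By `Chebyshev.theta_ge (4 * Y)` (`n log 2 - log (n + 1) - 2 √n log n ≤ θ n`) and `Chebyshev.theta_le_log4_mul_x`
(`θ x ≤ log 4 * x`, `log 4 = 2 log 2`), `θ(4Y) - θ(Y) ≥ 2 Y log 2 - log (4 Y + 1) - 2 √(4 Y) log (4 Y) ≥ Y` for large `Y`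
(`2 log 2 > 1.38`; `log` is `o` of any power, `Real.isLittleO_log_rpow_atTop`).
-/

set_option autoImplicit false

namespace Pool.Agent.FML

open NumberField Pool.Agent.FTA nonZeroDivisors

private theorem prM_theta (Y : ℕ) :
    Chebyshev.theta ((4 * Y : ℕ) : ℝ) - Chebyshev.theta (Y : ℝ) =
      ∑ p ∈ (Finset.Ioc Y (4 * Y)).filter Nat.Prime, Real.log p := by
  unfold Chebyshev.theta
  rw [Nat.floor_natCast, Nat.floor_natCast, Finset.sum_filter, Finset.sum_filter, Finset.sum_filter,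
    ← Finset.sum_Ioc_consecutive _ (Nat.zero_le Y) (by omega : Y ≤ 4 * Y)]
  ring

private theorem prM_small (x : ℝ) (hx : (4 : ℝ) * 10 ^ 8 ≤ x) :
    Real.log (x + 1) + 2 * √x * Real.log x ≤ 0.095 * x := by
  have hx0 : 0 < x := by linarith
  set s : ℝ := x ^ (1 / 4 : ℝ) with hs
  have hs0 : 0 < s := Real.rpow_pos_of_pos hx0 _
  have hs4 : s ^ 4 = x := by
    rw [hs, ← Real.rpow_natCast, ← Real.rpow_mul hx0.le]
    norm_num
  have hs2 : √x = s ^ 2 := by
    rw [← hs4, show s ^ 4 = (s ^ 2) ^ 2 by ring]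
    exact Real.sqrt_sq (by positivity)
  have hl : Real.log x ≤ 4 * s := by
    have := Real.log_le_rpow_div hx0.le (by norm_num : (0 : ℝ) < 1 / 4)
    rw [← hs] at this
    linarith
  have h100 : 100 ≤ s := by
    by_contra hlt
    push Not at hlt
    have : s ^ 4 < 100 ^ 4 := pow_lt_pow_left₀ hlt hs0.le (by norm_num)
    rw [hs4] at this
    norm_num at this
    linarith
  have hl1 : Real.log (x + 1) ≤ Real.log x + 1 := by
    have h1 : Real.log (x + 1) ≤ Real.log (2 * x) := Real.log_le_log (by linarith) (by linarith)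
    rw [Real.log_mul (by norm_num) hx0.ne'] at h1
    have := Real.log_two_lt_d9
    linarith
  have h2 : 2 * √x * Real.log x ≤ 8 * s ^ 3 := by
    rw [hs2]
    calc 2 * s ^ 2 * Real.log x ≤ 2 * s ^ 2 * (4 * s) :=
          mul_le_mul_of_nonneg_left hl (by positivity)
      _ = 8 * s ^ 3 := by ring
  have h3 : 4 * s + 1 + 8 * s ^ 3 ≤ 0.095 * s ^ 4 := by
    have a1 : 100 * s ^ 3 ≤ s ^ 4 := by
      rw [show s ^ 4 = s * s ^ 3 by ring]
      exact mul_le_mul_of_nonneg_right h100 (by positivity)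
    have a2 : 100 * s ^ 2 ≤ s ^ 3 := by
      rw [show s ^ 3 = s * s ^ 2 by ring]
      exact mul_le_mul_of_nonneg_right h100 (by positivity)
    have a3 : 100 * s ≤ s ^ 2 := by nlinarith
    nlinarith
  rw [← hs4] at hl hl1 h2 ⊢
  linarith

theorem prM : ∃ Y0 : ℕ, ∀ Y : ℕ, Y0 ≤ Y →
    (Y : ℝ) ≤ 2 * Real.log Y * (((Finset.Ioc Y (4 * Y)).filter Nat.Prime).card : ℝ) := by
  refine ⟨10 ^ 8, fun Y hY => ?_⟩
  have hYr : (10 : ℝ) ^ 8 ≤ Y := by exact_mod_cast hY
  have hY0 : (0 : ℝ) < Y := lt_of_lt_of_le (by norm_num) hYr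
  have h4 : Real.log ((4 * Y : ℕ) : ℝ) ≤ 2 * Real.log Y := by
    push_cast
    rw [Real.log_mul (by norm_num) hY0.ne', two_mul]
    gcongr
    linarith
  have hle : Chebyshev.theta ((4 * Y : ℕ) : ℝ) - Chebyshev.theta (Y : ℝ) ≤
      2 * Real.log Y * (((Finset.Ioc Y (4 * Y)).filter Nat.Prime).card : ℝ) := by
    rw [prM_theta]
    calc ∑ p ∈ (Finset.Ioc Y (4 * Y)).filter Nat.Prime, Real.log p
        ≤ ∑ p ∈ (Finset.Ioc Y (4 * Y)).filter Nat.Prime, 2 * Real.log Y := by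
          refine Finset.sum_le_sum fun p hp => ?_
          rw [Finset.mem_filter, Finset.mem_Ioc] at hp
          refine le_trans (Real.log_le_log ?_ ?_) h4
          · exact_mod_cast hp.2.pos
          · exact_mod_cast hp.1.2
      _ = _ := by rw [Finset.sum_const, nsmul_eq_mul]; ring
  have hge := Chebyshev.theta_ge (4 * Y)
  have hup := Chebyshev.theta_le_log4_mul_x hY0.le
  have hsm := prM_small ((4 * Y : ℕ) : ℝ) (by push_cast; linarith)
  have hl4 : Real.log 4 = 2 * Real.log 2 := by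
    rw [show (4 : ℝ) = 2 ^ 2 by norm_num, Real.log_pow]; norm_num
  have hl2 := Real.log_two_gt_d9
  rw [hl4] at hup
  push_cast at *
  nlinarith
end Pool.Agent.FML
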