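import Pool.Agent.FML.DefsM

/-!
# FML/DyM (size 3)

Dyadic summation.  PROOF.  `1 ≤ aD K ≤ M` for `K ∈ IQ M` (`aD_pos`, the definition of `IQ`); `IQ M` is finite (`famFin`).  For
`j ≤ J := Nat.log 2 M` let `B_j` be the set of `K ∈ IQ M` with `Nat.log 2 (aD K) = j`, i.e. `2 ^ j ≤ aD K < 2 ^ (j + 1)`.
`B_j ⊆ IQ (min (2 ^ (j+1)) M)`, so `∑_{B_j} w ≤ C (min (2 ^ (j+1)) M) ^ (1 + ε) ≤ C 2 ^ (j + 1) M ^ ε`, and
`∑_{B_j} w / √(aD K) ≤ C 2 ^ (j + 1) M ^ ε / 2 ^ (j/2) = 2 C M ^ ε (√2) ^ j`.  Sum over `j ≤ J`: `∑ (√2) ^ j ≤ (√2) ^ (J+1) / (√2 - 1)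
≤ 4 (√2) ^ J ≤ 4 √M` (`2 ^ J ≤ M`; `√2/(√2-1) = 3.41..`).  Total `≤ 8 C M ^ (1/2 + ε)`.
-/

set_option autoImplicit false

namespace Pool.Agent.FML

open NumberField Pool.Agent.FTA nonZeroDivisors

private theorem DyM_geo (J : ℕ) :
    ∑ j ∈ Finset.range (J + 1), (√(2 : ℝ)) ^ j ≤ 4 * (√(2 : ℝ)) ^ J := by
  have h2 : (14 / 10 : ℝ) ≤ √(2 : ℝ) := by
    apply Real.le_sqrt_of_sq_le
    norm_num
  induction J with
  | zero => simp
  | succ J ih =>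
    rw [Finset.sum_range_succ]
    have hp : (0 : ℝ) < (√(2 : ℝ)) ^ J := by positivity
    have h3 : 4 * (√(2 : ℝ)) ^ J ≤ 3 * (√(2 : ℝ)) ^ (J + 1) := by
      rw [pow_succ]
      nlinarith
    linarith

private theorem DyM_sq (j : ℕ) : √((2 : ℝ) ^ j) = (√(2 : ℝ)) ^ j := by
  rw [Real.sqrt_eq_iff_mul_self_eq (by positivity) (by positivity), ← mul_pow,
    Real.mul_self_sqrt (by norm_num)]

theorem dyM (w : IntermediateField ℚ ℂ → ℝ) (hw : ∀ K, 0 ≤ w K) (C ε : ℝ) (hε : 0 < ε)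
    (hU : ∀ m : ℕ, 1 ≤ m → ∑ᶠ K ∈ IQ m, w K ≤ C * (m : ℝ) ^ (1 + ε)) (M : ℕ) (hM : 1 ≤ M) :
    ∑ᶠ K ∈ IQ M, w K / √(aD K : ℝ) ≤ 20 * C * (M : ℝ) ^ (1 / 2 + ε) := by
  classical
  have hC : 0 ≤ C := by
    have h1 := hU 1 le_rfl
    rw [finsum_mem_eq_finite_toFinset_sum _ (famFin 1)] at h1
    have h2 : 0 ≤ ∑ K ∈ (famFin 1).toFinset, w K := Finset.sum_nonneg (fun K _ => hw K)
    simp only [Nat.cast_one, Real.one_rpow, mul_one] at h1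
    linarith
  have hMpos : (0 : ℝ) < M := by exact_mod_cast hM
  have hM1 : (1 : ℝ) ≤ M := by exact_mod_cast hM
  rw [finsum_mem_eq_finite_toFinset_sum _ (famFin M)]
  have hmem : ∀ K, K ∈ (famFin M).toFinset ↔ K ∈ IQ M := fun K => Set.Finite.mem_toFinset _
  have hpos : ∀ K ∈ IQ M, 0 < aD K ∧ aD K ≤ M := by
    rintro K ⟨hK, h2, him, hX⟩
    exact ⟨aD_pos K, hX⟩
  have hmaps : ∀ K ∈ (famFin M).toFinset, Nat.log 2 (aD K) ∈ Finset.range (Nat.log 2 M + 1) := by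
    intro K hK
    rw [Finset.mem_range]
    have := hpos K ((hmem K).1 hK)
    exact Nat.lt_succ_of_le (Nat.log_mono_right this.2)
  rw [← Finset.sum_fiberwise_of_maps_to hmaps]
  have hterm : ∀ j ∈ Finset.range (Nat.log 2 M + 1),
      ∑ K ∈ (famFin M).toFinset with Nat.log 2 (aD K) = j, w K / √(aD K : ℝ) ≤
        2 * C * (M : ℝ) ^ ε * (√(2 : ℝ)) ^ j := by
    intro j hj
    set m : ℕ := min (2 ^ (j + 1)) M with hm
    have hm1 : 1 ≤ m := le_min Nat.one_le_two_pow hM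
    have hs2 : (0 : ℝ) < (√(2 : ℝ)) ^ j := by positivity
    have hA : ∀ K ∈ (famFin M).toFinset.filter (fun K => Nat.log 2 (aD K) = j),
        K ∈ IQ m ∧ (2 : ℝ) ^ j ≤ (aD K : ℝ) := by
      intro K hK
      rw [Finset.mem_filter, hmem] at hK
      obtain ⟨hK1, hK2⟩ := hK
      have hp := hpos K hK1
      have hlt : aD K < 2 ^ (j + 1) := by
        rw [← hK2]
        exact Nat.lt_pow_succ_log_self (by norm_num) _
      have hge : 2 ^ j ≤ aD K := by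
        rw [← hK2]
        exact Nat.pow_log_le_self 2 hp.1.ne'
      obtain ⟨hK, h2, him, hX⟩ := hK1
      refine ⟨⟨hK, h2, him, le_min hlt.le hX⟩, ?_⟩
      exact_mod_cast hge
    have h1 : ∑ K ∈ (famFin M).toFinset with Nat.log 2 (aD K) = j, w K / √(aD K : ℝ) ≤
        ∑ K ∈ (famFin M).toFinset with Nat.log 2 (aD K) = j, w K / (√(2 : ℝ)) ^ j := by
      apply Finset.sum_le_sum
      intro K hK
      apply div_le_div_of_nonneg_left (hw K) hs2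
      rw [← DyM_sq]
      exact Real.sqrt_le_sqrt (hA K hK).2
    have h2 : ∑ K ∈ (famFin M).toFinset with Nat.log 2 (aD K) = j, w K ≤
        C * (m : ℝ) ^ (1 + ε) := by
      refine le_trans ?_ (hU m hm1)
      rw [finsum_mem_eq_finite_toFinset_sum _ (famFin m)]
      apply Finset.sum_le_sum_of_subset_of_nonneg
      · intro K hK
        rw [Set.Finite.mem_toFinset]
        exact (hA K hK).1
      · intro K _ _
        exact hw K
    have hmpos : (0 : ℝ) < m := by exact_mod_cast hm1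
    have h3 : (m : ℝ) ^ (1 + ε) ≤ 2 ^ (j + 1) * (M : ℝ) ^ ε := by
      rw [Real.rpow_add hmpos, Real.rpow_one]
      have e1 : (m : ℝ) ≤ 2 ^ (j + 1) := by
        have : m ≤ 2 ^ (j + 1) := min_le_left _ _
        exact_mod_cast this
      have e2 : (m : ℝ) ≤ M := by
        have : m ≤ M := min_le_right _ _
        exact_mod_cast this
      have e3 : (m : ℝ) ^ ε ≤ (M : ℝ) ^ ε := Real.rpow_le_rpow hmpos.le e2 hε.le
      exact mul_le_mul e1 e3 (by positivity) (by positivity)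
    refine h1.trans ?_
    rw [← Finset.sum_div, div_le_iff₀ hs2]
    refine h2.trans ?_
    have h4 : (√(2 : ℝ)) ^ j * (√(2 : ℝ)) ^ j = 2 ^ j := by
      rw [← mul_pow, Real.mul_self_sqrt (by norm_num)]
    calc C * (m : ℝ) ^ (1 + ε) ≤ C * (2 ^ (j + 1) * (M : ℝ) ^ ε) :=
          mul_le_mul_of_nonneg_left h3 hC
      _ = 2 * C * (M : ℝ) ^ ε * (2 ^ j) := by rw [pow_succ]; ring
      _ = 2 * C * (M : ℝ) ^ ε * ((√(2 : ℝ)) ^ j * (√(2 : ℝ)) ^ j) := by rw [h4]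
      _ = 2 * C * (M : ℝ) ^ ε * (√(2 : ℝ)) ^ j * (√(2 : ℝ)) ^ j := by ring
  refine (Finset.sum_le_sum hterm).trans ?_
  rw [← Finset.mul_sum]
  have hMe : (0 : ℝ) < (M : ℝ) ^ ε := by positivity
  have h5 : ∑ j ∈ Finset.range (Nat.log 2 M + 1), (√(2 : ℝ)) ^ j ≤ 4 * (M : ℝ) ^ (1 / 2 : ℝ) := by
    refine (DyM_geo _).trans ?_
    apply mul_le_mul_of_nonneg_left _ (by norm_num)
    rw [← DyM_sq, ← Real.sqrt_eq_rpow]
    apply Real.sqrt_le_sqrt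
    have : 2 ^ (Nat.log 2 M) ≤ M := Nat.pow_log_le_self 2 (by omega)
    exact_mod_cast this
  have h6 : (M : ℝ) ^ (1 / 2 + ε) = (M : ℝ) ^ (1 / 2 : ℝ) * (M : ℝ) ^ ε := by
    rw [Real.rpow_add hMpos]
  rw [h6]
  have h7 : 0 ≤ 2 * C * (M : ℝ) ^ ε := by positivity
  have h8 : (0 : ℝ) ≤ (M : ℝ) ^ (1 / 2 : ℝ) := by positivity
  calc 2 * C * (M : ℝ) ^ ε * ∑ j ∈ Finset.range (Nat.log 2 M + 1), (√(2 : ℝ)) ^ j
      ≤ 2 * C * (M : ℝ) ^ ε * (4 * (M : ℝ) ^ (1 / 2 : ℝ)) := mul_le_mul_of_nonneg_left h5 h7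
    _ = 8 * (C * (M : ℝ) ^ (1 / 2 : ℝ) * (M : ℝ) ^ ε) := by ring
    _ ≤ 20 * (C * (M : ℝ) ^ (1 / 2 : ℝ) * (M : ℝ) ^ ε) := by
        apply mul_le_mul_of_nonneg_right (by norm_num)
        positivity
    _ = 20 * C * ((M : ℝ) ^ (1 / 2 : ℝ) * (M : ℝ) ^ ε) := by ring

end Pool.Agent.FML
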