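import Pool.Agent.FML.DefsM

/-!
# FML/FdM (size 3)

The field `ℚ(√-d)`.  PROOF.  `s = i √d` satisfies `s² = -d`, so it is integral over `ℤ` and over `ℚ`, and
`Kd d = ℚ⟮s⟯` is finite dimensional (`IntermediateField.adjoin.finiteDimensional`), hence a number field (`NumberField.mk`,
characteristic zero).  The degree is at most 2 (`minpoly` divides `X² + d`:
`IntermediateField.adjoin.finrank`, `minpoly.natDegree_le`/`minpoly.dvd`) and not 1 (`s ∉ ⊥`: elements of `⊥` are rational,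
with imaginary part 0, but `im s = √d > 0`; compare `uniq_adjoin` in `Pool/Agent/FTA/Uniq.lean`).
`s` is an element of `𝓞 (Kd d)`: `⟨⟨s, mem⟩, integral⟩` (`IntermediateField.mem_adjoin_simple_self`; integrality of
`⟨s, mem⟩` over `ℤ` from the monic polynomial `X² + C d`).
-/

set_option autoImplicit false

namespace Pool.Agent.FML

open NumberField Pool.Agent.FTA nonZeroDivisors

theorem fdM (d : ℕ) (hd : 1 ≤ d) : ∃ _ : NumberField (Kd d), Module.finrank ℚ (Kd d) = 2 ∧
    (∃ x : Kd d, (x : ℂ).im ≠ 0) ∧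
    ∃ s : 𝓞 (Kd d), ((s : Kd d) : ℂ) = ((√(d : ℝ) : ℝ) : ℂ) * Complex.I := by
  set s : ℂ := ((√(d : ℝ) : ℝ) : ℂ) * Complex.I with hs
  have hd0 : (0 : ℝ) < √(d : ℝ) := Real.sqrt_pos.2 (by exact_mod_cast hd)
  have hs2 : s ^ 2 = -(d : ℂ) := by
    rw [hs, mul_pow, Complex.I_sq, ← Complex.ofReal_pow,
      Real.sq_sqrt (by positivity : (0 : ℝ) ≤ (d : ℝ))]
    push_cast
    ring
  have him : s.im = √(d : ℝ) := by
    rw [hs, Complex.mul_I_im, Complex.ofReal_re]
  have hiZ : IsIntegral ℤ s := by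
    refine ⟨Polynomial.X ^ 2 + Polynomial.C (d : ℤ), Polynomial.monic_X_pow_add_C _ (by norm_num), ?_⟩
    simp [hs2]
  have hiQ : IsIntegral ℚ s := hiZ.tower_top
  have hfd : FiniteDimensional ℚ (Kd d) := IntermediateField.adjoin.finiteDimensional hiQ
  have hnf : NumberField (Kd d) := { to_charZero := inferInstance, to_finiteDimensional := hfd }
  have hsm : s ∈ Kd d := IntermediateField.mem_adjoin_simple_self ℚ s
  have hlow : Module.finrank ℚ (Kd d) ≠ 1 := by
    intro h4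
    have h4' : Kd d = ⊥ := IntermediateField.finrank_eq_one_iff.1 h4
    have h5 : s ∈ (⊥ : IntermediateField ℚ ℂ) := by
      rw [← h4']
      exact hsm
    rw [IntermediateField.mem_bot] at h5
    obtain ⟨q, hq⟩ := h5
    have h6 := congrArg Complex.im hq
    rw [eq_ratCast, him, Complex.ratCast_im] at h6
    linarith
  have hup : Module.finrank ℚ (Kd d) ≤ 2 := by
    have h1 : Module.finrank ℚ (Kd d) = (minpoly ℚ s).natDegree :=
      IntermediateField.adjoin.finrank hiQ
    rw [h1]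
    have h2 : minpoly ℚ s ∣ (Polynomial.X ^ 2 + Polynomial.C (d : ℚ)) := by
      apply minpoly.dvd
      simp [hs2]
    have h3 := Polynomial.natDegree_le_of_dvd h2
      (Polynomial.monic_X_pow_add_C (d : ℚ) (by norm_num : (2 : ℕ) ≠ 0)).ne_zero
    rwa [Polynomial.natDegree_X_pow_add_C] at h3
  have hpos : 0 < Module.finrank ℚ (Kd d) := Module.finrank_pos
  refine ⟨hnf, by omega, ⟨⟨s, hsm⟩, ?_⟩, ⟨⟨⟨s, hsm⟩, ?_⟩, rfl⟩⟩
  · show s.im ≠ 0
    rw [him]
    exact hd0.ne'
  · show IsIntegral ℤ (⟨s, hsm⟩ : Kd d)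
    exact (isIntegral_algHom_iff ((Kd d).val.restrictScalars ℤ) Subtype.val_injective).1 hiZ

end Pool.Agent.FML
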