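import Pool.Agent.FML.DefsM

/-!
# FML/ElM (size 3)

The element `α = (t + a √-D)/2`.  PROOF.  `z0 : ℂ := (t + a √D i) / 2` is in `K` and is a root of the monic integral polynomial
`x² - t x + N³` (as `t² + a² D = 4 N³`), so it is `(α : K)` for an `α : 𝓞 K`.  `coord` gives integers `t', g0` with
`2 α = t' + g0 √(aD K) i`; compare real and imaginary parts: `t' = t`, `g0 √(aD K) = a √D > 0`, so `g0 ≥ 1`, and squaring
`g0² aD K = a² D`.  `coord` for `s` gives `2 √D i = t'' + z √(aD K) i`, so `t'' = 0`, `z ≥ 1`, `4 D = z² aD K`.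
`4 g² aD K = a² (4 D) = a² z² aD K`, and `aD K ≠ 0` (`aD_pos`), so `2 g = a z`.
-/

set_option autoImplicit false

namespace Pool.Agent.FML

open NumberField Pool.Agent.FTA nonZeroDivisors

theorem elM (K : IntermediateField ℚ ℂ) [NumberField K] (h2 : Module.finrank ℚ K = 2)
    (him : ∃ x : K, (x : ℂ).im ≠ 0) (D : ℕ) (hD : 1 ≤ D) (s : 𝓞 K)
    (hs : ((s : K) : ℂ) = ((√(D : ℝ) : ℝ) : ℂ) * Complex.I) (N a t : ℕ) (ha : 1 ≤ a)
    (h : t ^ 2 + a ^ 2 * D = 4 * N ^ 3) :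
    ∃ (α : 𝓞 K) (g z : ℕ), 1 ≤ g ∧ 1 ≤ z ∧
      2 * ((α : K) : ℂ) = (t : ℂ) + (g : ℂ) * ((√(aD K : ℝ) : ℝ) : ℂ) * Complex.I ∧
      g ^ 2 * aD K = a ^ 2 * D ∧ 4 * D = z ^ 2 * aD K ∧ 2 * g = a * z := by
  have hA : (0 : ℝ) < √(aD K : ℝ) := Real.sqrt_pos.2 (by exact_mod_cast aD_pos K)
  have hD0 : (0 : ℝ) < √(D : ℝ) := Real.sqrt_pos.2 (by exact_mod_cast hD)
  have ha0 : (0 : ℝ) < a := by exact_mod_cast ha
  have hs2 : (s : K) ^ 2 = -(D : K) := by
    apply Subtype.val_injective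
    have h1 : (((s : K) : ℂ)) ^ 2 = -(D : ℂ) := by
      rw [hs, mul_pow, Complex.I_sq, ← Complex.ofReal_pow,
        Real.sq_sqrt (by positivity : (0 : ℝ) ≤ (D : ℝ))]
      push_cast
      ring
    push_cast
    exact h1
  set x : K := ((t : K) + (a : K) * (s : K)) / 2 with hx
  have hroot : x ^ 2 - (t : K) * x + (N : K) ^ 3 = 0 := by
    have h1 : (t : K) ^ 2 + (a : K) ^ 2 * (D : K) = 4 * (N : K) ^ 3 := by exact_mod_cast h
    have h2 : x ^ 2 - (t : K) * x + (N : K) ^ 3 =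
        (-(t : K) ^ 2 + (a : K) ^ 2 * (s : K) ^ 2) / 4 + (N : K) ^ 3 := by
      rw [hx]
      ring
    rw [h2, hs2]
    linear_combination (-1 / 4 : K) * h1
  have hint : IsIntegral ℤ x := by
    refine ⟨Polynomial.X ^ 2 + (Polynomial.C (-(t : ℤ)) * Polynomial.X + Polynomial.C ((N : ℤ) ^ 3)),
      ?_, ?_⟩
    · apply Polynomial.monic_X_pow_add
      exact (Polynomial.degree_linear_le).trans_lt (by norm_num)
    · simp only [Polynomial.eval₂_add, Polynomial.eval₂_pow, Polynomial.eval₂_X,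
        Polynomial.eval₂_mul, Polynomial.eval₂_C]
      rw [← hroot]
      simp
      ring
  set α : 𝓞 K := ⟨x, hint⟩ with hα
  have hαx : ((α : K) : ℂ) = (x : ℂ) := rfl
  have hxC : 2 * (x : ℂ) = (t : ℂ) + (a : ℂ) * (((√(D : ℝ) : ℝ) : ℂ) * Complex.I) := by
    have h1 : 2 * x = (t : K) + (a : K) * (s : K) := by
      rw [hx]
      ring
    have h2 := congrArg K.val h1
    rw [map_mul, map_add, map_mul, map_ofNat, map_natCast, map_natCast] at h2
    rw [← hs]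
    exact h2
  obtain ⟨t', g0, hg0⟩ := coord K h2 him α
  obtain ⟨t'', z0, hz0⟩ := coord K h2 him s
  rw [hαx, hxC] at hg0
  rw [hs] at hz0
  have hre := congrArg Complex.re hg0
  have hIm := congrArg Complex.im hg0
  have hIm2 := congrArg Complex.im hz0
  simp at hre hIm hIm2
  have hg0p : 0 < g0 := by
    have h1 : (0 : ℝ) < (g0 : ℝ) * √(aD K : ℝ) := by
      rw [← hIm]
      positivity
    have h3 : (0 : ℝ) < (g0 : ℝ) := (pos_iff_pos_of_mul_pos h1).2 hA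
    exact_mod_cast h3
  have hz0p : 0 < z0 := by
    have h1 : (0 : ℝ) < (z0 : ℝ) * √(aD K : ℝ) := by
      rw [← hIm2]
      positivity
    have h3 : (0 : ℝ) < (z0 : ℝ) := (pos_iff_pos_of_mul_pos h1).2 hA
    exact_mod_cast h3
  obtain ⟨g, hg⟩ := Int.eq_ofNat_of_zero_le hg0p.le
  obtain ⟨z, hz⟩ := Int.eq_ofNat_of_zero_le hz0p.le
  rw [hg] at hg0p hIm hg0
  rw [hz] at hz0p hIm2
  rw [Int.cast_natCast] at hIm hIm2 hg0
  have hsA : √(aD K : ℝ) ^ 2 = (aD K : ℝ) := Real.sq_sqrt (by positivity)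
  have hsD : √(D : ℝ) ^ 2 = (D : ℝ) := Real.sq_sqrt (by positivity)
  refine ⟨α, g, z, by omega, by omega, ?_, ?_, ?_, ?_⟩
  · have h1 : (t' : ℂ) = (t : ℂ) := by
      have h3 : (t' : ℝ) = (t : ℝ) := hre.symm
      exact_mod_cast h3
    rw [hαx, hxC, hg0, h1]
  · have h1 : (g : ℝ) ^ 2 * (aD K : ℝ) = (a : ℝ) ^ 2 * (D : ℝ) := by
      rw [← hsA, ← hsD, ← mul_pow, ← mul_pow, hIm]
    exact_mod_cast h1
  · have h1 : 4 * (D : ℝ) = (z : ℝ) ^ 2 * (aD K : ℝ) := by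
      rw [← hsA, ← hsD, ← mul_pow, ← hIm2]
      ring
    exact_mod_cast h1
  · have h1 : (2 * (g : ℝ)) * √(aD K : ℝ) = ((a : ℝ) * z) * √(aD K : ℝ) := by
      rw [mul_assoc, ← hIm, mul_assoc, ← hIm2]
      ring
    have h3 := mul_right_cancel₀ hA.ne' h1
    exact_mod_cast h3

end Pool.Agent.FML
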