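import Pool.Agent.FML.DefsM

/-!
# FML/IdM (size 4)

The ideal `I` with `I ^ p = (α)`.  PROOF.  `β := t - α` is in `𝓞 K`, `(β : ℂ)` is the conjugate of `α`, and
`α β = |α|² = (t² + g² aD K) / 4 = N ^ p`.  The ideals `(α)`, `(β)` are coprime: an ideal containing both contains
`α + β = t` and `α β = N ^ p`, which generate 1 in `ℤ` (`IsCoprime.pow_right`).  `(α) (β) = (N) ^ p` in the ideals of the Dedekind
domain `𝓞 K`, so `(α) = I ^ p` (`exists_eq_pow_of_mul_eq_pow`, up to a unit of the monoid of ideals, which is 1;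
or `Ideal.exists_eq_pow_of_mul_eq_pow`, `Finset.exists_eq_pow_of_mul_eq_pow_of_coprime`; for ideals use
`IsCoprime` = `sup = ⊤`, and the `NormalizedGCDMonoid`/`UniqueFactorizationMonoid` structure on ideals).
`absNorm I ^ p = absNorm (span {α}) = ‖α‖² = N ^ p` (`absNorm_span`), so `absNorm I = N` (`Nat.pow_left_injective`).
Primitive: if `n ≥ 2` and `I ≤ span {n}`, take a prime `l ∣ n`; `α ∈ I ^ p ≤ I ≤ span {l}`, so `α = l x`, `β = l x'`
(`x' = ` conjugate of `x`, i.e. `x' = trace x - x`), so `l ∣ α + β = t` in `𝓞 K`, hence in `ℤ` (norms, or `t / l` is a rational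
algebraic integer), and `l² ∣ α β = N ^ p`, so `l ∣ N`: this contradicts `IsCoprime t N`.
-/

set_option autoImplicit false

namespace Pool.Agent.FML

open NumberField Pool.Agent.FTA nonZeroDivisors

private theorem idM_ss (K : IntermediateField ℚ ℂ) [NumberField K] :
    ((√(aD K : ℝ) : ℝ) : ℂ) * ((√(aD K : ℝ) : ℝ) : ℂ) = (aD K : ℂ) := by
  rw [← Complex.ofReal_mul, Real.mul_self_sqrt (Nat.cast_nonneg _)]
  simp

private theorem idM_norm (K : IntermediateField ℚ ℂ) [NumberField K] (h2 : Module.finrank ℚ K = 2)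
    (him : ∃ x : K, (x : ℂ).im ≠ 0) (a : 𝓞 K) (t y : ℤ)
    (h : 2 * ((a : K) : ℂ) = (t : ℂ) + (y : ℂ) * ((√(aD K : ℝ) : ℝ) : ℂ) * Complex.I) :
    4 * (Ideal.absNorm (Ideal.span {a}) : ℤ) = t ^ 2 + y ^ 2 * (aD K : ℤ) := by
  have h1 : 4 * ‖((a : K) : ℂ)‖ ^ 2 = (t : ℝ) ^ 2 + (y : ℝ) ^ 2 * (aD K : ℝ) := by
    have h3 : Complex.normSq (2 * ((a : K) : ℂ)) = 4 * ‖((a : K) : ℂ)‖ ^ 2 := by
      rw [Complex.normSq_mul, Complex.normSq_eq_norm_sq ((a : K) : ℂ)]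
      norm_num
    rw [← h3, h, Complex.normSq_apply]
    have hre : ((t : ℂ) + (y : ℂ) * ((√(aD K : ℝ) : ℝ) : ℂ) * Complex.I).re = t := by simp
    have him' : ((t : ℂ) + (y : ℂ) * ((√(aD K : ℝ) : ℝ) : ℂ) * Complex.I).im =
        y * √(aD K : ℝ) := by simp
    rw [hre, him']
    have h4 : √(aD K : ℝ) * √(aD K : ℝ) = (aD K : ℝ) := Real.mul_self_sqrt (Nat.cast_nonneg _)
    calc (t : ℝ) * t + (y : ℝ) * √(aD K : ℝ) * (y * √(aD K : ℝ)) =
        (t : ℝ) ^ 2 + (y : ℝ) ^ 2 * (√(aD K : ℝ) * √(aD K : ℝ)) := by ring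
      _ = _ := by rw [h4]
  rw [← absNorm_span K h2 him a] at h1
  exact_mod_cast h1

theorem idM (K : IntermediateField ℚ ℂ) [NumberField K] (h2 : Module.finrank ℚ K = 2)
    (him : ∃ x : K, (x : ℂ).im ≠ 0) (α : 𝓞 K) (t g : ℤ)
    (hα : 2 * ((α : K) : ℂ) = (t : ℂ) + (g : ℂ) * ((√(aD K : ℝ) : ℝ) : ℂ) * Complex.I)
    (N p : ℕ) (hN : 2 ≤ N) (hp : 1 ≤ p) (h : t ^ 2 + g ^ 2 * (aD K : ℤ) = 4 * (N : ℤ) ^ p)
    (hco : IsCoprime t (N : ℤ)) :
    ∃ I : (Ideal (𝓞 K))⁰, (I : Ideal (𝓞 K)) ^ p = Ideal.span {α} ∧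
      Ideal.absNorm (I : Ideal (𝓞 K)) = N ∧ Prim K (I : Ideal (𝓞 K)) := by
  classical
  -- the conjugate
  have hmul : α * ((t : 𝓞 K) - α) = (N : 𝓞 K) ^ p := by
    apply RingOfIntegers.ext
    apply Subtype.ext
    have e1 : ((((α * ((t : 𝓞 K) - α) : 𝓞 K)) : K) : ℂ) =
        ((α : K) : ℂ) * ((t : ℂ) - ((α : K) : ℂ)) := by
      push_cast
      rfl
    have e2 : (((((N : 𝓞 K) ^ p : 𝓞 K)) : K) : ℂ) = (N : ℂ) ^ p := by
      push_cast
      rfl
    rw [e1, e2]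
    have h' : (t : ℂ) ^ 2 + (g : ℂ) ^ 2 * (aD K : ℂ) = 4 * (N : ℂ) ^ p := by exact_mod_cast h
    have hss := idM_ss K
    have hI := Complex.I_mul_I
    set A : ℂ := ((α : K) : ℂ)
    set s : ℂ := ((√(aD K : ℝ) : ℝ) : ℂ)
    have e3 : 4 * (A * (t - A)) = 4 * (N : ℂ) ^ p := by
      have e4 : 4 * (A * (t - A)) = (2 * A) * (2 * t - 2 * A) := by ring
      rw [e4, hα, ← h']
      linear_combination (g : ℂ) ^ 2 * hss - (g : ℂ) ^ 2 * s * s * hI
    linear_combination e3 / 4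
  -- coprimality
  have hcop : IsCoprime α ((t : 𝓞 K) - α) := by
    obtain ⟨u, v, huv⟩ := hco.pow_right (n := p)
    refine ⟨(u : 𝓞 K) + (v : 𝓞 K) * ((t : 𝓞 K) - α), (u : 𝓞 K), ?_⟩
    have huv' : (u : 𝓞 K) * (t : 𝓞 K) + (v : 𝓞 K) * (N : 𝓞 K) ^ p = 1 := by
      exact_mod_cast congrArg (fun z : ℤ => (z : 𝓞 K)) huv
    linear_combination huv' + (v : 𝓞 K) * hmul
  have hmulI : Ideal.span {α} * Ideal.span {(t : 𝓞 K) - α} =
      (Ideal.span {(N : 𝓞 K)}) ^ p := by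
    rw [Ideal.span_singleton_mul_span_singleton, hmul, Ideal.span_singleton_pow]
  obtain ⟨I, hI⟩ := exists_eq_pow_of_mul_eq_pow_of_coprime
    ((Ideal.isCoprime_span_singleton_iff _ _).2 hcop) hmulI
  have hnorm : Ideal.absNorm I = N := by
    have h1 := idM_norm K h2 him α t g hα
    rw [h, hI, map_pow] at h1
    have h3 : (Ideal.absNorm I) ^ p = N ^ p := by
      have h4 : (((Ideal.absNorm I) ^ p : ℕ) : ℤ) = (N : ℤ) ^ p := by linarith
      exact_mod_cast h4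
    exact Nat.pow_left_injective (by omega) h3
  have hI0 : I ≠ 0 := by
    rintro rfl
    simp at hnorm
    omega
  refine ⟨⟨I, mem_nonZeroDivisors_of_ne_zero hI0⟩, hI.symm, hnorm, ?_⟩
  intro n hn hle
  change I ≤ Ideal.span {(n : 𝓞 K)} at hle
  obtain ⟨l, hl, hln⟩ := Nat.exists_prime_and_dvd (by omega : n ≠ 1)
  have hle' : I ≤ Ideal.span {(l : 𝓞 K)} := by
    refine hle.trans ?_
    rw [Ideal.span_singleton_le_span_singleton]
    exact_mod_cast Nat.cast_dvd_cast hln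
  -- `l ∣ N`
  have hlN : l ∣ N := by
    have h1 := Ideal.absNorm_dvd_absNorm_of_le hle'
    rw [hnorm] at h1
    have h3 : Ideal.absNorm (Ideal.span {(l : 𝓞 K)}) = l ^ 2 := by
      have h4 := absNorm_span K h2 him (l : 𝓞 K)
      have h5 : ((((l : 𝓞 K)) : K) : ℂ) = (l : ℂ) := by
        push_cast
        rfl
      rw [h5, Complex.norm_natCast] at h4
      exact_mod_cast h4
    rw [h3] at h1
    exact (dvd_pow_self l two_ne_zero).trans h1
  -- `l ∣ t`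
  have hlt : (l : ℤ) ∣ t := by
    have h1 : α ∈ Ideal.span {(l : 𝓞 K)} := by
      apply hle'
      have h3 : α ∈ I ^ p := by
        rw [← hI]
        exact Ideal.mem_span_singleton_self α
      exact Ideal.pow_le_self (by omega) h3
    rw [Ideal.mem_span_singleton] at h1
    obtain ⟨x, hx⟩ := h1
    obtain ⟨t', y', hc⟩ := coord K h2 him x
    refine ⟨t', ?_⟩
    have h4 : ((α : K) : ℂ) = (l : ℂ) * ((x : K) : ℂ) := by
      rw [hx]
      push_cast
      rfl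
    rw [h4] at hα
    have h5 : (t : ℂ) + (g : ℂ) * ((√(aD K : ℝ) : ℝ) : ℂ) * Complex.I =
        (l : ℂ) * ((t' : ℂ) + (y' : ℂ) * ((√(aD K : ℝ) : ℝ) : ℂ) * Complex.I) := by
      rw [← hc, ← hα]
      ring
    have h6 := congrArg Complex.re h5
    simp at h6
    exact_mod_cast h6
  have h7 := hco.isUnit_of_dvd' hlt (by exact_mod_cast hlN)
  rw [Int.isUnit_iff_natAbs_eq] at h7
  simp at h7
  exact hl.one_lt.ne' h7

end Pool.Agent.FML
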