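import Pool.Agent.FML.DefsM

/-!
# FML/InM (size 2)

PROOF.  In `ℤ`: `2 N b - t = - a (b c + a d)`, so `a ∣ 2 N b - t` and `a ∣ 2 N b' - t` (same `N`, `t`), hence
`a ∣ 2 N (b - b')`.  `a` is an odd prime (`a > Y ≥ 2`) and `a ∤ N` (`N = b² + a c`, `1 ≤ b < a`), so `a ∣ b - b'`,
`|b - b'| < a`, `b = b'`.  Then `a c = a c'` gives `c = c'`, and `a² d = a² d'` gives `d = d'`.
-/

set_option autoImplicit false

namespace Pool.Agent.FML

open NumberField Pool.Agent.FTA nonZeroDivisors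

theorem inM (P Y R a b c d b' c' d' : ℕ) (hY : 2 ≤ Y) (h : IsQ P Y R a b c d)
    (h' : IsQ P Y R a b' c' d') (hN : Nq a b c = Nq a b' c') (ht : tq a b c d = tq a b' c' d') :
    b = b' ∧ c = c' ∧ d = d' := by
  obtain ⟨pr, la, ua, lb, ub, lc, uc, ld, ut, co⟩ := h
  obtain ⟨-, -, -, lb', ub', lc', uc', ld', ut', co'⟩ := h'
  have hapos : 0 < a := pr.pos
  have hodd : ¬ a ∣ 2 := by
    intro hd
    have := Nat.le_of_dvd (by norm_num) hd
    omega
  have hNZ : (Nq a b c : ℤ) = (Nq a b' c' : ℤ) := by exact_mod_cast hN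
  have htZ : (tq a b c d : ℤ) = (tq a b' c' d' : ℤ) := by exact_mod_cast ht
  have e1 : 2 * (Nq a b c : ℤ) * b - tq a b c d = (a : ℤ) * (-((b : ℤ) * c + a * d)) := by
    unfold Nq tq
    push_cast
    ring
  have e2 : 2 * (Nq a b' c' : ℤ) * b' - tq a b' c' d' = (a : ℤ) * (-((b' : ℤ) * c' + a * d')) := by
    unfold Nq tq
    push_cast
    ring
  have d1 : (a : ℤ) ∣ 2 * (Nq a b c : ℤ) * ((b : ℤ) - b') := by
    have : 2 * (Nq a b c : ℤ) * ((b : ℤ) - b') =
        (a : ℤ) * ((-((b : ℤ) * c + a * d)) - (-((b' : ℤ) * c' + a * d'))) := by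
      rw [mul_sub (a : ℤ), ← e1, ← e2, ← hNZ, ← htZ]
      ring
    rw [this]
    exact dvd_mul_right _ _
  have hprZ : Prime (a : ℤ) := Nat.prime_iff_prime_int.mp pr
  have hnN : ¬ (a : ℤ) ∣ (Nq a b c : ℤ) := by
    intro hd
    have hd' : a ∣ Nq a b c := by exact_mod_cast hd
    have h2 : a ∣ b ^ 2 := by
      have h3 : Nq a b c = b ^ 2 + a * c := rfl
      rw [h3] at hd'
      exact (Nat.dvd_add_left (dvd_mul_right a c)).mp hd'
    have h4 : a ∣ b := pr.dvd_of_dvd_pow h2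
    have := Nat.le_of_dvd (by omega) h4
    omega
  have hn2 : ¬ (a : ℤ) ∣ 2 := by
    intro hd
    apply hodd
    exact_mod_cast hd
  have d2 : (a : ℤ) ∣ ((b : ℤ) - b') := by
    rcases hprZ.dvd_or_dvd d1 with h3 | h3
    · rcases hprZ.dvd_or_dvd h3 with h4 | h4
      · exact absurd h4 hn2
      · exact absurd h4 hnN
    · exact h3
  have hbb : b = b' := by
    have habs : |(b : ℤ) - b'| < (a : ℤ) := by
      rw [abs_lt]
      constructor <;> omega
    have h0 : (b : ℤ) - b' = 0 := Int.eq_zero_of_abs_lt_dvd d2 habs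
    omega
  subst hbb
  have hac : a * c = a * c' := by
    have h3 : b ^ 2 + a * c = b ^ 2 + a * c' := hN
    omega
  have hcc : c = c' := Nat.eq_of_mul_eq_mul_left hapos hac
  subst hcc
  have had : a ^ 2 * d = a ^ 2 * d' := by
    have h3 : 2 * b ^ 3 + 3 * a * b * c + a ^ 2 * d = 2 * b ^ 3 + 3 * a * b * c + a ^ 2 * d' := ht
    omega
  have hdd : d = d' := Nat.eq_of_mul_eq_mul_left (by positivity) had
  exact ⟨rfl, rfl, hdd⟩

end Pool.Agent.FML
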