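import Pool.Agent.FML.DefsM

/-!
# FML/UnM (size 3)

Generators of one ideal.  PROOF.  Let `T` be the given finite set of elements.  If `T` is empty there is nothing to do; otherwise
fix `α0 ∈ T`, `2 α0 = t0 + g0 √D i` with integers `t0, g0` (`coord`; `D = aD K ≥ 1`).  For `α ∈ T`: `(α) = (α0)` gives
`α = u α0` with a unit `u` (`Ideal.span_singleton_eq_span_singleton`, `Associated`), `|u|² = 1` (the norm of a unit is `±1`;
`‖α‖ = ‖α0‖ ≠ 0` by `absNorm_span`), and `2 u = x + z √D i` (`coord`) with `x² + D z² = 4`, so `|x| ≤ 2`, `|z| ≤ 2`: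
`α` is determined by `(x, z) ∈ Icc (-2) 2 ×ˢ Icc (-2) 2`, 25 pairs.  (`α0 ≠ 0` is a hypothesis through `I0`.)
-/

set_option autoImplicit false

namespace Pool.Agent.FML

open NumberField Pool.Agent.FTA nonZeroDivisors

theorem unM (K : IntermediateField ℚ ℂ) [NumberField K] (h2 : Module.finrank ℚ K = 2)
    (him : ∃ x : K, (x : ℂ).im ≠ 0) (I0 : Ideal (𝓞 K)) (hI : I0 ≠ ⊥) (T : Finset (𝓞 K))
    (hT : ∀ α ∈ T, Ideal.span {α} = I0) : T.card ≤ 25 := by
  classical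
  rcases T.eq_empty_or_nonempty with rfl | ⟨α0, h0⟩
  · simp
  have hα0 : α0 ≠ 0 := by
    rintro rfl
    apply hI
    rw [← hT 0 h0]
    simp
  set z0 : ℂ := ((α0 : K) : ℂ) with hz0
  have hz0ne : z0 ≠ 0 := by
    intro h
    apply hα0
    have h1 : (α0 : K) = 0 := by
      apply Subtype.ext
      simpa [hz0] using h
    exact_mod_cast h1
  set D : ℕ := aD K with hD
  have hDpos : 0 < D := aD_pos K
  have hD1 : (1 : ℝ) ≤ (D : ℝ) := by exact_mod_cast hDpos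
  have key : ∀ α ∈ T, ∃ p : ℤ × ℤ, p ∈ Finset.Icc (-2 : ℤ) 2 ×ˢ Finset.Icc (-2 : ℤ) 2 ∧
      2 * ((α : K) : ℂ) = ((p.1 : ℂ) + (p.2 : ℂ) * ((√(D : ℝ) : ℝ) : ℂ) * Complex.I) * z0 := by
    intro α hα
    have h1 : Ideal.span {α0} = Ideal.span {α} := by rw [hT α hα, hT α0 h0]
    obtain ⟨u, hu⟩ := Ideal.span_singleton_eq_span_singleton.1 h1
    obtain ⟨x, z, hxz⟩ := coord K h2 him (u : 𝓞 K)
    have hn : ‖((α : K) : ℂ)‖ ^ 2 = ‖z0‖ ^ 2 := by
      rw [← absNorm_span K h2 him α, ← absNorm_span K h2 him α0, h1]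
    have hmul : ((α : K) : ℂ) = z0 * (((u : 𝓞 K) : K) : ℂ) := by
      rw [← hu, hz0]
      simp
    have hun : ‖(((u : 𝓞 K) : K) : ℂ)‖ ^ 2 = 1 := by
      rw [hmul, norm_mul, mul_pow] at hn
      have h3 : ‖z0‖ ^ 2 ≠ 0 := by positivity
      exact mul_left_cancel₀ h3 (by rw [hn, mul_one])
    have h4 : (x : ℝ) ^ 2 + (D : ℝ) * (z : ℝ) ^ 2 = 4 := by
      have h5 : ‖(2 : ℂ) * (((u : 𝓞 K) : K) : ℂ)‖ ^ 2 = 4 := by
        rw [norm_mul, mul_pow, hun]
        norm_num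
      rw [hxz, ← Complex.normSq_eq_norm_sq, Complex.normSq_apply] at h5
      simp only [Complex.mul_re, Complex.add_re, Complex.intCast_re, Complex.intCast_im,
        Complex.ofReal_re, Complex.ofReal_im, Complex.I_re, Complex.I_im, Complex.mul_im,
        Complex.add_im] at h5
      have h6 := Real.mul_self_sqrt (Nat.cast_nonneg (α := ℝ) D)
      have h7 : (x : ℝ) ^ 2 + (z : ℝ) ^ 2 * (√(D : ℝ) * √(D : ℝ)) = 4 := by
        nlinarith [h5]
      rw [h6] at h7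
      linarith
    have hx : (x : ℝ) ^ 2 ≤ 4 := by nlinarith [sq_nonneg (z : ℝ)]
    have hz : (z : ℝ) ^ 2 ≤ 4 := by nlinarith [sq_nonneg (z : ℝ), sq_nonneg (x : ℝ)]
    have hx' : x ^ 2 ≤ 4 := by exact_mod_cast hx
    have hz' : z ^ 2 ≤ 4 := by exact_mod_cast hz
    refine ⟨(x, z), ?_, ?_⟩
    · rw [Finset.mem_product, Finset.mem_Icc, Finset.mem_Icc]
      refine ⟨⟨by nlinarith, by nlinarith⟩, ⟨by nlinarith, by nlinarith⟩⟩
    · rw [hmul, ← hxz]
      ring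
  choose! f hf1 hf2 using key
  have hcard : T.card ≤ (Finset.Icc (-2 : ℤ) 2 ×ˢ Finset.Icc (-2 : ℤ) 2).card := by
    refine Finset.card_le_card_of_injOn f (fun α hα => hf1 α hα) ?_
    intro α hα β hβ h
    have h3 := hf2 α hα
    have h4 := hf2 β hβ
    rw [← h, ← h3] at h4
    have h5 : ((β : K) : ℂ) = ((α : K) : ℂ) := mul_left_cancel₀ (two_ne_zero) h4
    have h6 : (β : K) = (α : K) := Subtype.ext h5
    exact (RingOfIntegers.ext h6).symm
  exact hcard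

end Pool.Agent.FML
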