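import Pool.Agent.FML.DefsM
import Pool.Agent.FML.AlM
import Pool.Agent.FML.InM
import Pool.Agent.FML.ElM
import Pool.Agent.FML.IdM
import Pool.Agent.FML.UnM

/-!
# FML/LcA (size 4)

From quadruples to ideals, for one field `K`.  PROOF.  For `q = (a, b, c, d) ∈ S` with `N = Nq`, `t = tq`, `D = Dq`: `alM` gives
`P < N ≤ 2 P` (so `N ≥ 2`: `P ≥ 129 * 4`), `t² + a² D = 4 N³`, `a² D ≤ 32 P³`; the element `s` with `s = √D i` in `𝓞 K` is given by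
the hypothesis.  `elM` gives `α, g, z`, and `idM` (with `p = 3`, `IsCoprime` from `IsQ.co`) an ideal `I` with
`I³ = (α)`, `absNorm I = N`, primitive.  Choose such data `(I, α, g)` for every `q ∈ S` and let `T` be the image of `S` under
`q ↦ I`.  `mk0 I ^ 3 = mk0 (I ^ 3) = 1` (`ClassGroup.mk0_eq_one_iff`, principal).
Fibres: fix `I`.  All `q` with this `I` have the same `N = absNorm I`, and `α_q` generates `I³`, so `α_q` takes at most 25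
values (`unM`).  Fix also `α`: then `t_q` and `g_q` are fixed (real and imaginary part of `2 α`, `aD K ≥ 1`), and
`a_q` is a prime `> Y` dividing `2 g` (`2 g = a z`), where `(2 g)² aD K = 4 a² D ≤ 128 P³ < Y ^ 8`, so `2 g < Y ^ 4`: at most 3 such
primes (four different ones would have product `> Y ^ 4` dividing `2 g ≥ 1`).  `a, N, t` determine `q` (`inM`).  So every
fibre has at most `25 * 3 = 75` elements (`Finset.card_le_mul_card_image`).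
-/

set_option autoImplicit false

namespace Pool.Agent.FML

open NumberField Pool.Agent.FTA nonZeroDivisors

private theorem lcA_primes (Y m : ℕ) (hm : 1 ≤ m) (hmY : m < Y ^ 4) (A : Finset ℕ)
    (hA : ∀ p ∈ A, p.Prime ∧ Y < p ∧ p ∣ m) : A.card ≤ 3 := by
  by_contra hcon
  have h4 : 4 ≤ A.card := by omega
  have hdvd : (∏ p ∈ A, p) ∣ m :=
    Finset.prod_primes_dvd m (fun p hp => (hA p hp).1.prime) (fun p hp => (hA p hp).2.2)
  have hle : ∏ p ∈ A, p ≤ m := Nat.le_of_dvd (by omega) hdvd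
  have hge : ∏ _p ∈ A, (Y + 1) ≤ ∏ p ∈ A, p :=
    Finset.prod_le_prod' (fun p hp => (hA p hp).2.1)
  rw [Finset.prod_const] at hge
  have h5 : (Y + 1) ^ 4 ≤ (Y + 1) ^ A.card := Nat.pow_le_pow_right (by omega) h4
  have h6 : Y ^ 4 ≤ (Y + 1) ^ 4 := Nat.pow_le_pow_left (by omega) 4
  omega

private theorem lcA_tg (D : ℕ) (hD : 1 ≤ D) (t t' g g' : ℕ)
    (h : (t : ℂ) + (g : ℂ) * ((√(D : ℝ) : ℝ) : ℂ) * Complex.I =
      (t' : ℂ) + (g' : ℂ) * ((√(D : ℝ) : ℝ) : ℂ) * Complex.I) : t = t' ∧ g = g' := by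
  have hs : 0 < √(D : ℝ) := Real.sqrt_pos.2 (by exact_mod_cast hD)
  constructor
  · have h1 := congrArg Complex.re h
    simp at h1
    exact h1
  · have h1 := congrArg Complex.im h
    simp at h1
    rcases h1 with h1 | h1
    · exact h1
    · omega

theorem lcA (K : IntermediateField ℚ ℂ) [NumberField K] (h2 : Module.finrank ℚ K = 2)
    (him : ∃ x : K, (x : ℂ).im ≠ 0) (P Y R : ℕ) (hY : 2 ≤ Y) (h1 : 129 * Y ^ 2 ≤ P)
    (hR : R ^ 2 ≤ P ^ 3) (h7 : 128 * P ^ 3 < Y ^ 8) (S : Finset (ℕ × ℕ × ℕ × ℕ))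
    (hS : ∀ q ∈ S, IsQ P Y R q.1 q.2.1 q.2.2.1 q.2.2.2 ∧
      ∃ s : 𝓞 K, ((s : K) : ℂ) = ((√(Dq q.1 q.2.1 q.2.2.1 q.2.2.2 : ℝ) : ℝ) : ℂ) * Complex.I) :
    ∃ T : Finset ((Ideal (𝓞 K))⁰), (∀ I ∈ T, 2 ≤ Ideal.absNorm (I : Ideal (𝓞 K)) ∧
        Ideal.absNorm (I : Ideal (𝓞 K)) ≤ 2 * P ∧ Prim K (I : Ideal (𝓞 K)) ∧
        (ClassGroup.mk0 I) ^ 3 = 1) ∧ S.card ≤ 75 * T.card := by
  classical
  have hDpos : 1 ≤ aD K := aD_pos K
  have hdat : ∀ q ∈ S, ∃ (I : (Ideal (𝓞 K))⁰) (α : 𝓞 K) (g : ℕ), 1 ≤ g ∧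
      2 * ((α : K) : ℂ) = ((tq q.1 q.2.1 q.2.2.1 q.2.2.2 : ℕ) : ℂ) +
        (g : ℂ) * ((√(aD K : ℝ) : ℝ) : ℂ) * Complex.I ∧
      (2 * g) ^ 2 * aD K ≤ 128 * P ^ 3 ∧ q.1 ∣ 2 * g ∧
      (I : Ideal (𝓞 K)) ^ 3 = Ideal.span {α} ∧
      Ideal.absNorm (I : Ideal (𝓞 K)) = Nq q.1 q.2.1 q.2.2.1 ∧
      P < Nq q.1 q.2.1 q.2.2.1 ∧ Nq q.1 q.2.1 q.2.2.1 ≤ 2 * P ∧
      Prim K (I : Ideal (𝓞 K)) := by
    intro q hq
    obtain ⟨hQ, s, hs⟩ := hS q hq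
    obtain ⟨e1, e2, e3, e4, e5⟩ := alM P Y R _ _ _ _ h1 hR hQ
    obtain ⟨α, g, z, hg, hz, hα, hg2, hz2, hgz⟩ := elM K h2 him _ e3 s hs
      (Nq q.1 q.2.1 q.2.2.1) q.1 (tq q.1 q.2.1 q.2.2.1 q.2.2.2) hQ.pr.one_lt.le e4
    have hY4 : 4 ≤ Y ^ 2 := by nlinarith
    have hN2 : 2 ≤ Nq q.1 q.2.1 q.2.2.1 := by omega
    obtain ⟨I, hI1, hI2, hI3⟩ := idM K h2 him α (tq q.1 q.2.1 q.2.2.1 q.2.2.2 : ℕ) (g : ℕ)
      (by rw [hα]; push_cast; rfl) (Nq q.1 q.2.1 q.2.2.1) 3 hN2 (by norm_num)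
      (by
        have h8 : tq q.1 q.2.1 q.2.2.1 q.2.2.2 ^ 2 + g ^ 2 * aD K =
            4 * Nq q.1 q.2.1 q.2.2.1 ^ 3 := by
          rw [hg2]; exact e4
        exact_mod_cast h8)
      (Nat.isCoprime_iff_coprime.2 hQ.co.symm)
    refine ⟨I, α, g, hg, hα, ?_, ⟨z, hgz⟩, hI1, hI2, e1, e2, hI3⟩
    have h9 : (2 * g) ^ 2 * aD K = 4 * (g ^ 2 * aD K) := by ring
    rw [h9, hg2]
    omega
  choose! I α g hI using hdat
  refine ⟨S.image I, ?_, ?_⟩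
  · intro J hJ
    rw [Finset.mem_image] at hJ
    obtain ⟨q, hq, rfl⟩ := hJ
    obtain ⟨_, _, _, _, hI1, hI2, hP1, hP2, hI3⟩ := hI q hq
    have hY4 : 4 ≤ Y ^ 2 := by nlinarith
    refine ⟨by rw [hI2]; omega, by rw [hI2]; exact hP2, hI3, ?_⟩
    rw [← map_pow, ClassGroup.mk0_eq_one_iff, SubmonoidClass.coe_pow, hI1]
    exact ⟨⟨α q, rfl⟩⟩
  · refine Finset.card_le_mul_card_image S 75 ?_
    intro J hJ
    set F := S.filter (fun q => I q = J) with hF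
    have hFS : ∀ q ∈ F, q ∈ S ∧ I q = J := by
      intro q hq
      rw [hF, Finset.mem_filter] at hq
      exact hq
    have hA : (F.image α).card ≤ 25 := by
      apply unM K h2 him ((J : Ideal (𝓞 K)) ^ 3)
      · have hJ0 : (J : Ideal (𝓞 K)) ≠ ⊥ := nonZeroDivisors.ne_zero J.2
        exact pow_ne_zero 3 hJ0
      · intro a ha
        rw [Finset.mem_image] at ha
        obtain ⟨q, hq, rfl⟩ := ha
        obtain ⟨hqS, hqJ⟩ := hFS q hq
        obtain ⟨_, _, _, _, hI1, _⟩ := hI q hqS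
        rw [← hI1, hqJ]
    have hfib : ∀ a ∈ F.image α, (F.filter (fun q => α q = a)).card ≤ 3 := by
      intro a0 ha0
      set G := F.filter (fun q => α q = a0) with hG
      have hGS : ∀ q ∈ G, q ∈ S ∧ I q = J ∧ α q = a0 := by
        intro q hq
        rw [hG, Finset.mem_filter] at hq
        exact ⟨(hFS q hq.1).1, (hFS q hq.1).2, hq.2⟩
      rcases G.eq_empty_or_nonempty with h0 | ⟨q0, hq0⟩
      · rw [h0]; simp
      -- all `q` have the same `t`, `g`, `N`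
      have hsame : ∀ q ∈ G, tq q.1 q.2.1 q.2.2.1 q.2.2.2 = tq q0.1 q0.2.1 q0.2.2.1 q0.2.2.2 ∧
          g q = g q0 ∧ Nq q.1 q.2.1 q.2.2.1 = Nq q0.1 q0.2.1 q0.2.2.1 := by
        intro q hq
        obtain ⟨hqS, hqJ, hqa⟩ := hGS q hq
        obtain ⟨hqS0, hqJ0, hqa0⟩ := hGS q0 hq0
        obtain ⟨_, hα1, _, _, _, hN1, _⟩ := hI q hqS
        obtain ⟨_, hα0, _, _, _, hN0, _⟩ := hI q0 hqS0
        have h8 : ((tq q.1 q.2.1 q.2.2.1 q.2.2.2 : ℕ) : ℂ) +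
            (g q : ℂ) * ((√(aD K : ℝ) : ℝ) : ℂ) * Complex.I =
            ((tq q0.1 q0.2.1 q0.2.2.1 q0.2.2.2 : ℕ) : ℂ) +
            (g q0 : ℂ) * ((√(aD K : ℝ) : ℝ) : ℂ) * Complex.I := by
          rw [← hα1, ← hα0, hqa, hqa0]
        obtain ⟨h9, h10⟩ := lcA_tg (aD K) hDpos _ _ _ _ h8
        refine ⟨h9, h10, ?_⟩
        rw [← hN1, ← hN0, hqJ, hqJ0]
      have hinj : Set.InjOn (fun q : ℕ × ℕ × ℕ × ℕ => q.1) (G : Set (ℕ × ℕ × ℕ × ℕ)) := by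
        rintro ⟨a, b, c, d⟩ hq ⟨a', b', c', d'⟩ hq' haa
        simp only at haa
        subst haa
        obtain ⟨ht, _, hN⟩ := hsame _ hq
        obtain ⟨ht', _, hN'⟩ := hsame _ hq'
        have hQ := (hS _ (hGS _ hq).1).1
        have hQ' := (hS _ (hGS _ hq').1).1
        simp only at ht hN ht' hN' hQ hQ'
        obtain ⟨hb, hc, hd⟩ := inM P Y R a b c d b' c' d' hY hQ hQ' (hN.trans hN'.symm)
          (ht.trans ht'.symm)
        rw [hb, hc, hd]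
      rw [← Finset.card_image_of_injOn hinj]
      obtain ⟨hg0, _, hb0, _⟩ := hI q0 (hGS q0 hq0).1
      have hm : 2 * g q0 < Y ^ 4 := by
        have h8 : (2 * g q0) ^ 2 ≤ (2 * g q0) ^ 2 * aD K := Nat.le_mul_of_pos_right _ hDpos
        have h9 : (2 * g q0) ^ 2 < (Y ^ 4) ^ 2 := by
          have h10 : (Y ^ 4) ^ 2 = Y ^ 8 := by ring
          omega
        exact lt_of_pow_lt_pow_left₀ 2 (by positivity) h9
      apply lcA_primes Y (2 * g q0) (by omega) hm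
      intro p hp
      rw [Finset.mem_image] at hp
      obtain ⟨q, hq, rfl⟩ := hp
      have hqS := (hGS q hq).1
      have hQ := (hS q hqS).1
      refine ⟨hQ.pr, hQ.la, ?_⟩
      obtain ⟨_, _, _, hdv, _⟩ := hI q hqS
      rw [(hsame q hq).2.1] at hdv
      exact hdv
    calc F.card ≤ 3 * (F.image α).card := Finset.card_le_mul_card_image F 3 hfib
      _ ≤ 3 * 25 := Nat.mul_le_mul_left 3 hA
      _ = 75 := by norm_num

end Pool.Agent.FML
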