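import Pool.Agent.FML.DefsM
import Pool.Agent.FTL.LPc

/-!
# FML/PcM

The number of primitive ideals of norm at most `B` in a class (module LPc of squad FTL).
-/

set_option autoImplicit false

namespace Pool.Agent.FML

open NumberField Pool.Agent.FTA nonZeroDivisors

theorem pcM (K : IntermediateField ℚ ℂ) [NumberField K] (h2 : Module.finrank ℚ K = 2)
    (him : ∃ x : K, (x : ℂ).im ≠ 0) (c : ClassGroup (𝓞 K)) (B : ℕ)
    (T : Finset ((Ideal (𝓞 K))⁰)) (hT : ∀ I ∈ T, ClassGroup.mk0 I = c ∧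
      Ideal.absNorm (I : Ideal (𝓞 K)) ≤ B ∧ Prim K (I : Ideal (𝓞 K))) :
    (T.card : ℝ) ≤ 5 + 12 * B / √(aD K : ℝ) := by
  refine Pool.Agent.FTL.prc K h2 him c (B : ℝ) (by positivity) T ?_
  intro I hI
  obtain ⟨h3, h4, h5⟩ := hT I hI
  exact ⟨h3, by exact_mod_cast h4, h5⟩

end Pool.Agent.FML
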