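import Pool.Agent.FML.DefsM
import Pool.Agent.FML.PcM

/-!
# FML/LcB (size 3)

From ideals to classes, for one field.  PROOF.  The classes `mk0 I`, `I ∈ T`, lie in the finite set `Cl[3] = {c | c ^ 3 = 1}`.  Every fibre
has at most `5 + 12 (2 P) / √(aD K)` elements (`pcM` with `B = 2 P`).  If `aD K > 8 P` the class 1 is not attained: `mk0 I = 1`
means `I = (β)`, `|β|² = absNorm I ≤ 2 P < aD K / 4` (`absNorm_span`), and `2 β = x + z √(aD K) i` (`coord`) with
`x² + z² aD K = 4 |β|² < aD K`, so `z = 0`, `β = x / 2` is a rational algebraic integer, `β = n`; `|n| ≥ 2` because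
`absNorm I ≥ 2`, and `I ≤ span {n}` contradicts `Prim` (with `n.natAbs`).  So the number of attained classes is at most
`card Cl[3] - 1` if `aD K > 8 P` and at most `card Cl[3]` always.  `Finset.card_le_mul_card_image` or `Pool.Agent.FTA.fib_const`.
-/

set_option autoImplicit false

namespace Pool.Agent.FML

open NumberField Pool.Agent.FTA nonZeroDivisors

private theorem LcB_norm (K : IntermediateField ℚ ℂ) [NumberField K]
    (h2 : Module.finrank ℚ K = 2) (him : ∃ x : K, (x : ℂ).im ≠ 0) (a : 𝓞 K) (t y : ℤ)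
    (h : 2 * ((a : K) : ℂ) = (t : ℂ) + (y : ℂ) * ((√(aD K : ℝ) : ℝ) : ℂ) * Complex.I) :
    (4 * (Ideal.absNorm (Ideal.span {a}) : ℤ)) = t ^ 2 + (aD K : ℤ) * y ^ 2 := by
  have h1 : 4 * ‖((a : K) : ℂ)‖ ^ 2 = (t : ℝ) ^ 2 + (aD K : ℝ) * (y : ℝ) ^ 2 := by
    have h3 : Complex.normSq (2 * ((a : K) : ℂ)) = 4 * ‖((a : K) : ℂ)‖ ^ 2 := by
      rw [Complex.normSq_mul, Complex.normSq_eq_norm_sq ((a : K) : ℂ)]
      norm_num
    rw [← h3, h, Complex.normSq_apply]
    have hre : ((t : ℂ) + (y : ℂ) * ((√(aD K : ℝ) : ℝ) : ℂ) * Complex.I).re = t := by simp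
    have him' : ((t : ℂ) + (y : ℂ) * ((√(aD K : ℝ) : ℝ) : ℂ) * Complex.I).im =
        y * √(aD K : ℝ) := by simp
    rw [hre, him']
    have h4 : √(aD K : ℝ) * √(aD K : ℝ) = aD K := Real.mul_self_sqrt (Nat.cast_nonneg _)
    calc (t : ℝ) * t + (y : ℝ) * √(aD K : ℝ) * (y * √(aD K : ℝ)) =
        (t : ℝ) ^ 2 + (√(aD K : ℝ) * √(aD K : ℝ)) * (y : ℝ) ^ 2 := by ring
      _ = _ := by rw [h4]
  rw [← absNorm_span K h2 him a] at h1
  exact_mod_cast h1

private theorem LcB_one (K : IntermediateField ℚ ℂ) [NumberField K]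
    (h2 : Module.finrank ℚ K = 2) (him : ∃ x : K, (x : ℂ).im ≠ 0) (P : ℕ) (hP : 8 * P < aD K)
    (I : (Ideal (𝓞 K))⁰) (hI1 : 2 ≤ Ideal.absNorm (I : Ideal (𝓞 K)))
    (hI2 : Ideal.absNorm (I : Ideal (𝓞 K)) ≤ 2 * P) (hI3 : Prim K (I : Ideal (𝓞 K))) :
    ClassGroup.mk0 I ≠ 1 := by
  intro h1
  rw [ClassGroup.mk0_eq_one_iff] at h1
  obtain ⟨β, hβ⟩ := h1
  have hβ' : (I : Ideal (𝓞 K)) = Ideal.span {β} := hβ
  obtain ⟨t, y, hty⟩ := coord K h2 him β
  have h3 := LcB_norm K h2 him β t y hty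
  rw [← hβ'] at h3
  have h4 : (Ideal.absNorm (I : Ideal (𝓞 K)) : ℤ) ≤ 2 * P := by exact_mod_cast hI2
  have h5 : (8 * P : ℤ) < aD K := by exact_mod_cast hP
  have h5' : (2 : ℤ) ≤ (Ideal.absNorm (I : Ideal (𝓞 K)) : ℤ) := by exact_mod_cast hI1
  have hy : y = 0 := by
    by_contra hy
    have h6 : 1 ≤ y ^ 2 := by
      have h7 : 0 < y ^ 2 := by positivity
      linarith
    nlinarith [sq_nonneg t]
  subst hy
  generalize (Ideal.absNorm (I : Ideal (𝓞 K)) : ℤ) = N at h3 h4 h5'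
  have h6 : t ^ 2 = 4 * N := by rw [h3]; ring
  have h7 : Even t := by
    have : Even (t ^ 2) := by
      rw [h6]
      exact ⟨2 * N, by ring⟩
    exact (Int.even_pow.1 this).1
  obtain ⟨s, hs⟩ := h7
  have h8 : ((β : K) : ℂ) = (((s : 𝓞 K) : K) : ℂ) := by
    have h9 : 2 * ((β : K) : ℂ) = 2 * (s : ℂ) := by
      rw [hty, hs]
      push_cast
      ring
    have h10 := mul_left_cancel₀ (two_ne_zero) h9
    rw [h10]
    simp
  have h9 : β = (s : 𝓞 K) := RingOfIntegers.ext (Subtype.ext h8)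
  have h10 : s ^ 2 = N := by
    rw [hs] at h6
    linarith [h6, (by ring : (s + s) ^ 2 = 4 * s ^ 2)]
  have h11 : 2 ≤ s.natAbs := by
    by_contra h
    push Not at h
    have h12 : (s.natAbs : ℤ) ≤ 1 := by omega
    have h13 : s ^ 2 = (s.natAbs : ℤ) ^ 2 := (Int.natAbs_sq s).symm
    have h14 : (0 : ℤ) ≤ (s.natAbs : ℤ) := Int.natCast_nonneg _
    have h15 : s ^ 2 ≤ 1 := by
      rw [h13]
      nlinarith
    linarith
  refine hI3 s.natAbs h11 ?_
  rw [hβ', h9, Ideal.span_singleton_le_span_singleton]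
  rcases Int.natAbs_eq s with h | h
  · refine ⟨1, ?_⟩
    rw [mul_one]
    have := congrArg (fun z : ℤ => (z : 𝓞 K)) h
    simpa using this
  · refine ⟨-1, ?_⟩
    have := congrArg (fun z : ℤ => (z : 𝓞 K)) h
    simpa using this

private theorem LcB_fib {α β : Type*} [DecidableEq β] (S : Finset α) (f : α → β) (t : Finset β)
    (h : ∀ a ∈ S, f a ∈ t) (b : ℝ)
    (hb : ∀ y ∈ t, ((S.filter (fun a => f a = y)).card : ℝ) ≤ b) :
    (S.card : ℝ) ≤ t.card * b := by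
  rw [Finset.card_eq_sum_card_fiberwise (f := f) (t := t) h]
  push_cast
  refine (Finset.sum_le_sum hb).trans (le_of_eq ?_)
  rw [Finset.sum_const, nsmul_eq_mul]

theorem lcB (K : IntermediateField ℚ ℂ) [NumberField K] (h2 : Module.finrank ℚ K = 2)
    (him : ∃ x : K, (x : ℂ).im ≠ 0) (P : ℕ) (T : Finset ((Ideal (𝓞 K))⁰))
    (hT : ∀ I ∈ T, 2 ≤ Ideal.absNorm (I : Ideal (𝓞 K)) ∧
        Ideal.absNorm (I : Ideal (𝓞 K)) ≤ 2 * P ∧ Prim K (I : Ideal (𝓞 K)) ∧
        (ClassGroup.mk0 I) ^ 3 = 1) :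
    (T.card : ℝ) ≤ ((Nat.card {c : ClassGroup (𝓞 K) // c ^ 3 = 1} : ℝ) - 1 +
        (if aD K ≤ 8 * P then 1 else 0)) * (5 + 24 * P / √(aD K : ℝ)) := by
  classical
  have hfin : Finite (ClassGroup (𝓞 K)) := inferInstance
  have hF : Set.Finite {c : ClassGroup (𝓞 K) | c ^ 3 = 1} := Set.toFinite _
  have hcard : hF.toFinset.card = Nat.card {c : ClassGroup (𝓞 K) // c ^ 3 = 1} := by
    rw [← Set.ncard_eq_toFinset_card _ hF]
    rfl
  have hfib : ∀ c : ClassGroup (𝓞 K),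
      ((T.filter (fun I => ClassGroup.mk0 I = c)).card : ℝ) ≤ 5 + 24 * P / √(aD K : ℝ) := by
    intro c
    have h := pcM K h2 him c (2 * P) (T.filter (fun I => ClassGroup.mk0 I = c)) (by
      intro I hI
      obtain ⟨hI1, hI2⟩ := Finset.mem_filter.1 hI
      obtain ⟨-, h4, h5, -⟩ := hT I hI1
      exact ⟨hI2, h4, h5⟩)
    refine h.trans (le_of_eq ?_)
    push_cast
    ring
  rw [← hcard]
  split_ifs with hc
  · have h := LcB_fib T (fun I => ClassGroup.mk0 I) hF.toFinset (by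
      intro I hI
      rw [Set.Finite.mem_toFinset]
      exact (hT I hI).2.2.2) _ (fun c _ => hfib c)
    refine h.trans (le_of_eq ?_)
    ring
  · push Not at hc
    have h1 : (1 : ClassGroup (𝓞 K)) ∈ hF.toFinset := by
      rw [Set.Finite.mem_toFinset]
      exact one_pow 3
    have h := LcB_fib T (fun I => ClassGroup.mk0 I) (hF.toFinset.erase 1) (by
      intro I hI
      obtain ⟨h3, h4, h5, h6⟩ := hT I hI
      rw [Finset.mem_erase, Set.Finite.mem_toFinset]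
      exact ⟨LcB_one K h2 him P hc I h3 h4 h5, h6⟩) _ (fun c _ => hfib c)
    refine h.trans (le_of_eq ?_)
    rw [Finset.card_erase_of_mem h1, Nat.cast_sub (Finset.card_pos.2 ⟨_, h1⟩)]
    push_cast
    ring

end Pool.Agent.FML
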