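import Pool.Agent.FML.DefsM
import Pool.Agent.FML.LcA
import Pool.Agent.FML.LcB
import Pool.Agent.FML.DyM
import Pool.Agent.FML.FdM
import Pool.Agent.FML.AdL

/-!
# FML/SmM (size 4)

The sum over the fields.  Put `n3 K = Nat.card {c : ClassGroup (𝓞 K) // c ^ 3 = 1}` (`≥ 1`).  PROOF.  For `q ∈ S` let
`D = Dq q`, `1 ≤ D` and `a² D ≤ 32 P³` (`alM`), so `4 D Y² ≤ 4 D a² ≤ 128 P³ ≤ X Y²`, `4 D ≤ X`; the field `Kd D` is
in `IQ X` (`fdM`, `adL`).  So `card S = ∑ card {q ∈ S | Kd (Dq q) = K}` over `K ∈ IQ X` (`famFin`,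
`Finset.card_eq_sum_card_fiberwise`).  For each `K ∈ IQ X`, `lcA` (the `s` from `fdM`, transported by `Kd D = K`) and `lcB` give
`card {..} ≤ 75 (n3 K - 1 + [aD K ≤ 8P]) (5 + 24 P / √(aD K))`.
 For `aD K > P²` (then `aD K > 8 P` too, since `P ≥ 516`) the factor is `≤ 29`, and the term is `≤ 75 * 29 (n3 K - 1)`.
 For `aD K ≤ P²`: `5 + 24 P / √(aD K) ≤ 29 P / √(aD K)` (`P / √(aD K) ≥ 1`), and the term is `≤ 75 * 29 * P * n3 K / √(aD K)`;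
by `dyM` with `M = P²`, `∑_{IQ (P²)} n3 K / √(aD K) ≤ 20 C (P²) ^ (1/2 + ε) = 20 C P ^ (1 + 2ε)`.
 Total: `card S ≤ 2175 ∑_{IQ X} (n3 K - 1) + 2175 * 20 C P ^ (2 + 2 ε)`.
-/

set_option autoImplicit false

namespace Pool.Agent.FML

open NumberField Pool.Agent.FTA nonZeroDivisors

open Classical in
private theorem SmM_fib (P Y R : ℕ) (hY : 2 ≤ Y) (h1 : 129 * Y ^ 2 ≤ P) (hR : R ^ 2 ≤ P ^ 3)
    (h7 : 128 * P ^ 3 < Y ^ 8) (S : Finset (ℕ × ℕ × ℕ × ℕ))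
    (hS : ∀ q ∈ S, IsQ P Y R q.1 q.2.1 q.2.2.1 q.2.2.2) (X : ℕ) (K : IntermediateField ℚ ℂ)
    (hK : K ∈ IQ X) :
    ((S.filter fun q => Kd (Dq q.1 q.2.1 q.2.2.1 q.2.2.2) = K).card : ℝ) ≤
      75 * (((Nat.card {c : ClassGroup (𝓞 K) // c ^ 3 = 1} : ℝ) - 1 +
        (if aD K ≤ 8 * P then 1 else 0)) * (5 + 24 * P / √(aD K : ℝ))) := by
  obtain ⟨hN, h2, him, hX⟩ := hK
  have h3 : ∀ q ∈ S.filter (fun q => Kd (Dq q.1 q.2.1 q.2.2.1 q.2.2.2) = K),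
      IsQ P Y R q.1 q.2.1 q.2.2.1 q.2.2.2 ∧
      ∃ s : 𝓞 K, ((s : K) : ℂ) =
        ((√(Dq q.1 q.2.1 q.2.2.1 q.2.2.2 : ℝ) : ℝ) : ℂ) * Complex.I := by
    intro q hq
    rw [Finset.mem_filter] at hq
    obtain ⟨hq1, hq2⟩ := hq
    refine ⟨hS q hq1, ?_⟩
    have h4 := (alM P Y R _ _ _ _ h1 hR (hS q hq1)).2.2.1
    obtain ⟨_, _, _, h5⟩ := fdM _ h4
    exact hq2 ▸ h5
  obtain ⟨T, hT, hc⟩ := lcA K h2 him P Y R hY h1 hR h7 _ h3
  have h4 := lcB K h2 him P T hT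
  have h5 : ((S.filter fun q => Kd (Dq q.1 q.2.1 q.2.2.1 q.2.2.2) = K).card : ℝ) ≤
      75 * (T.card : ℝ) := by exact_mod_cast hc
  linarith

private theorem SmM_n3 (X : ℕ) (K : IntermediateField ℚ ℂ) (hK : K ∈ IQ X) :
    (1 : ℝ) ≤ (Nat.card {c : ClassGroup (𝓞 K) // c ^ 3 = 1} : ℝ) := by
  obtain ⟨hN, h2, him, hX⟩ := hK
  have h1 : 0 < Nat.card {c : ClassGroup (𝓞 K) // c ^ 3 = 1} := by
    have : Nonempty {c : ClassGroup (𝓞 K) // c ^ 3 = 1} := ⟨⟨1, one_pow 3⟩⟩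
    exact Nat.card_pos
  exact_mod_cast h1

private theorem SmM_one (P : ℕ) (hP : 516 ≤ P) (m : ℕ) (hm : 1 ≤ m) (n : ℝ) (hn : 1 ≤ n) :
    75 * ((n - 1 + (if m ≤ 8 * P then 1 else 0)) * (5 + 24 * P / √(m : ℝ))) ≤
      2175 * (n - 1) + (if m ≤ P ^ 2 then 2175 * P * (n / √(m : ℝ)) else 0) := by
  have hm0 : (0 : ℝ) < m := by exact_mod_cast hm
  have hs0 : 0 < √(m : ℝ) := Real.sqrt_pos.2 hm0
  have hP0 : (0 : ℝ) < P := by
    have : 0 < P := by omega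
    exact_mod_cast this
  by_cases h : m ≤ P ^ 2
  · rw [if_pos h]
    have h1 : √(m : ℝ) ≤ P := by
      rw [Real.sqrt_le_left hP0.le]
      exact_mod_cast h
    have h2 : 1 ≤ P / √(m : ℝ) := by
      rw [le_div_iff₀ hs0, one_mul]
      exact h1
    have h3 : 5 + 24 * P / √(m : ℝ) ≤ 29 * (P / √(m : ℝ)) := by
      have : 24 * (P : ℝ) / √(m : ℝ) = 24 * (P / √(m : ℝ)) := by ring
      rw [this]
      linarith
    have h4 : n - 1 + (if m ≤ 8 * P then (1 : ℝ) else 0) ≤ n := by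
      split_ifs <;> linarith
    have h5 : 0 ≤ n - 1 + (if m ≤ 8 * P then (1 : ℝ) else 0) := by
      split_ifs <;> linarith
    have h6 : (n - 1 + (if m ≤ 8 * P then (1 : ℝ) else 0)) * (5 + 24 * P / √(m : ℝ)) ≤
        n * (29 * (P / √(m : ℝ))) :=
      mul_le_mul h4 h3 (by positivity) (by linarith)
    have h7 : 2175 * (P : ℝ) * (n / √(m : ℝ)) = 75 * (n * (29 * (P / √(m : ℝ)))) := by ring
    rw [h7]
    have h8 : 0 ≤ 2175 * (n - 1) := by linarith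
    linarith
  · rw [if_neg h]
    have h0 : P ^ 2 < m := by omega
    have h1 : ¬ m ≤ 8 * P := by
      intro h2
      have h3 : 516 * P ≤ P ^ 2 := by
        rw [pow_two]
        exact Nat.mul_le_mul_right _ hP
      omega
    rw [if_neg h1]
    have h2 : (P : ℝ) ≤ √(m : ℝ) := by
      apply Real.le_sqrt_of_sq_le
      exact_mod_cast h0.le
    have h3 : P / √(m : ℝ) ≤ 1 := by
      rw [div_le_one hs0]
      exact h2
    have h4 : 5 + 24 * P / √(m : ℝ) ≤ 29 := by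
      have : 24 * (P : ℝ) / √(m : ℝ) = 24 * (P / √(m : ℝ)) := by ring
      rw [this]
      linarith
    have h5 : (n - 1 + 0) * (5 + 24 * P / √(m : ℝ)) ≤ (n - 1) * 29 := by
      rw [add_zero]
      exact mul_le_mul_of_nonneg_left h4 (by linarith)
    linarith

theorem smM (C ε : ℝ) (hC : 0 ≤ C) (hε : 0 < ε)
    (hU : ∀ m : ℕ, 1 ≤ m → ∑ᶠ K ∈ IQ m, (Nat.card {c : ClassGroup (𝓞 K) // c ^ 3 = 1} : ℝ) ≤
      C * (m : ℝ) ^ (1 + ε))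
    (η : ℝ) (X P Y R : ℕ) (hP : IsP η X P Y R) (S : Finset (ℕ × ℕ × ℕ × ℕ))
    (hS : ∀ q ∈ S, IsQ P Y R q.1 q.2.1 q.2.2.1 q.2.2.2) :
    (S.card : ℝ) ≤ 2175 * ∑ᶠ K ∈ IQ X,
        ((Nat.card {c : ClassGroup (𝓞 K) // c ^ 3 = 1} : ℝ) - 1) +
      50000 * C * (P : ℝ) ^ (2 + 2 * ε) := by
  classical
  set n3 : IntermediateField ℚ ℂ → ℝ := fun K =>
    (Nat.card {c : ClassGroup (𝓞 K) // c ^ 3 = 1} : ℝ) with hn3
  have hP516 : 516 ≤ P := by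
    have h1 := hP.h1
    have h2 : 2 ^ 2 ≤ Y ^ 2 := Nat.pow_le_pow_left hP.hY 2
    omega
  have hP0 : (0 : ℝ) < P := by
    have : 0 < P := by omega
    exact_mod_cast this
  have hY0 : 0 < Y := by
    have := hP.hY
    omega
  -- the fields belong to `IQ X`
  have hmap : ∀ q ∈ S, Kd (Dq q.1 q.2.1 q.2.2.1 q.2.2.2) ∈ (famFin X).toFinset := by
    intro q hq
    rw [Set.Finite.mem_toFinset]
    obtain ⟨-, -, h4, -, h5⟩ := alM P Y R _ _ _ _ hP.h1 hP.h2 (hS q hq)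
    obtain ⟨hN, h2, him, s, hs⟩ := fdM _ h4
    refine ⟨hN, h2, him, ?_⟩
    refine (adL _ h4 hN h2 him s hs).trans ?_
    set D := Dq q.1 q.2.1 q.2.2.1 q.2.2.2 with hD
    have h6 : Y ^ 2 ≤ q.1 ^ 2 := Nat.pow_le_pow_left (hS q hq).la.le 2
    have h7 : Y ^ 2 * D ≤ q.1 ^ 2 * D := Nat.mul_le_mul_right _ h6
    have h8 := hP.h10
    have h9 : (4 * D) * Y ^ 2 ≤ X * Y ^ 2 := by
      calc (4 * D) * Y ^ 2 = 4 * (Y ^ 2 * D) := by ring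
        _ ≤ 4 * (q.1 ^ 2 * D) := Nat.mul_le_mul_left _ h7
        _ ≤ 4 * (32 * P ^ 3) := Nat.mul_le_mul_left _ h5
        _ = 128 * P ^ 3 := by ring
        _ ≤ X * Y ^ 2 := h8
    exact Nat.le_of_mul_le_mul_right h9 (pow_pos hY0 2)
  have hcard := Finset.card_eq_sum_card_fiberwise
    (f := fun q : ℕ × ℕ × ℕ × ℕ => Kd (Dq q.1 q.2.1 q.2.2.1 q.2.2.2)) (s := S)
    (t := (famFin X).toFinset) (fun q hq => hmap q hq)
  -- the bound for each field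
  have hb : ∀ K ∈ (famFin X).toFinset,
      (((S.filter fun q => Kd (Dq q.1 q.2.1 q.2.2.1 q.2.2.2) = K).card : ℕ) : ℝ) ≤
        2175 * (n3 K - 1) + (if aD K ≤ P ^ 2 then 2175 * P * (n3 K / √(aD K : ℝ)) else 0) := by
    intro K hK
    rw [Set.Finite.mem_toFinset] at hK
    refine (SmM_fib P Y R hP.hY hP.h1 hP.h2 hP.h7 S hS X K hK).trans ?_
    have h1 : 1 ≤ aD K := by
      obtain ⟨hN, h2, him, hX⟩ := hK
      exact aD_pos K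
    exact SmM_one P hP516 (aD K) h1 (n3 K) (SmM_n3 X K hK)
  have e1 : ∑ᶠ K ∈ IQ X, (n3 K - 1) = ∑ K ∈ (famFin X).toFinset, (n3 K - 1) :=
    finsum_mem_eq_finite_toFinset_sum _ (famFin X)
  have e2 : ∑ᶠ K ∈ IQ (P ^ 2), n3 K / √(aD K : ℝ) =
      ∑ K ∈ (famFin (P ^ 2)).toFinset, n3 K / √(aD K : ℝ) :=
    finsum_mem_eq_finite_toFinset_sum _ (famFin (P ^ 2))
  have hn0 : ∀ K, 0 ≤ n3 K := fun K => Nat.cast_nonneg _
  have hdy := dyM n3 hn0 C ε hε hU (P ^ 2) (Nat.one_le_pow _ _ (by omega))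
  have e3 : ∑ K ∈ (famFin X).toFinset,
      (if aD K ≤ P ^ 2 then 2175 * P * (n3 K / √(aD K : ℝ)) else 0) ≤
      2175 * P * ∑ K ∈ (famFin (P ^ 2)).toFinset, n3 K / √(aD K : ℝ) := by
    rw [← Finset.sum_filter, ← Finset.mul_sum]
    apply mul_le_mul_of_nonneg_left _ (by positivity)
    apply Finset.sum_le_sum_of_subset_of_nonneg
    · intro K hK
      rw [Finset.mem_filter, Set.Finite.mem_toFinset] at hK
      rw [Set.Finite.mem_toFinset]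
      obtain ⟨⟨hN, h2, him, hX⟩, h3⟩ := hK
      exact ⟨hN, h2, him, h3⟩
    · intro K _ _
      exact div_nonneg (hn0 K) (Real.sqrt_nonneg _)
  have e4 : (((P ^ 2 : ℕ) : ℝ)) ^ (1 / 2 + ε) = (P : ℝ) ^ (1 + 2 * ε) := by
    push_cast
    rw [← Real.rpow_natCast, ← Real.rpow_mul hP0.le]
    congr 1
    push_cast
    ring
  have e5 : (P : ℝ) * (P : ℝ) ^ (1 + 2 * ε) = (P : ℝ) ^ (2 + 2 * ε) := by
    have h1 : (2 + 2 * ε : ℝ) = 1 + (1 + 2 * ε) := by ring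
    rw [h1, Real.rpow_add hP0 1 (1 + 2 * ε), Real.rpow_one]
  rw [e2, e4] at hdy
  have e6 : 2175 * (P : ℝ) * ∑ K ∈ (famFin (P ^ 2)).toFinset, n3 K / √(aD K : ℝ) ≤
      50000 * C * (P : ℝ) ^ (2 + 2 * ε) := by
    calc 2175 * (P : ℝ) * ∑ K ∈ (famFin (P ^ 2)).toFinset, n3 K / √(aD K : ℝ)
        ≤ 2175 * (P : ℝ) * (20 * C * (P : ℝ) ^ (1 + 2 * ε)) :=
          mul_le_mul_of_nonneg_left hdy (by positivity)
      _ = 43500 * (C * ((P : ℝ) * (P : ℝ) ^ (1 + 2 * ε))) := by ring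
      _ = 43500 * (C * (P : ℝ) ^ (2 + 2 * ε)) := by rw [e5]
      _ ≤ 50000 * C * (P : ℝ) ^ (2 + 2 * ε) := by
          have h1 : 0 ≤ C * (P : ℝ) ^ (2 + 2 * ε) := mul_nonneg hC (Real.rpow_nonneg hP0.le _)
          linarith
  have e7 : (S.card : ℝ) = ∑ K ∈ (famFin X).toFinset,
      (((S.filter fun q => Kd (Dq q.1 q.2.1 q.2.2.1 q.2.2.2) = K).card : ℕ) : ℝ) := by
    exact_mod_cast hcard
  have e8 : ∑ᶠ K ∈ IQ X, ((Nat.card {c : ClassGroup (𝓞 K) // c ^ 3 = 1} : ℝ) - 1) =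
      ∑ K ∈ (famFin X).toFinset, (n3 K - 1) := e1
  rw [e7, e8]
  refine (Finset.sum_le_sum hb).trans ?_
  rw [Finset.sum_add_distrib, ← Finset.mul_sum]
  linarith

end Pool.Agent.FML
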