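import Pool.Agent.FML.DefsM
import Pool.Agent.FML.SmM
import Pool.Agent.FML.CnM
import Pool.Agent.FML.PrM
import Pool.Agent.FML.PaM

/-!
# FML/MaM (size 3)

The lower bound.  PROOF.  We may assume `ε ≤ 1/20` (for larger `ε` use the result for `1/20`, as `X ^ (1 - ε) ≤ X ^ (1 - 1/20)`).  Put
`η = ε / 2 ≤ 1/40` and let `δ = η / 8`, `C` the constant of `hU` for `δ` (for real `X`; it gives the natural version with
`⌊(m : ℝ)⌋₊ = m`; `C ≥ 0`, or replace `C` by `max C 0`).  For large natural `n` take `P, Y, R` from `paM` (with `Y0` from `prM`), and `S` from `cnM`.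
`prM`: `Y ≤ 2 log Y * π`, `π` the number of primes, so `π P R ≥ Y P R / (2 log Y)` and, with `h8`,
`4096 Y² card S ≥ π P R ≥ Y P R / (2 log Y) ≥ Y X^(1 - 3η/2) (8192 Y log Y) / (2 log Y) = 4096 Y² X ^ (1 - 3η/2)`; so
`card S ≥ n ^ (1 - 3η/2)`.  `smM`: `card S ≤ 2175 Σ + 50000 C P ^ (2 + 2δ)`, `P ≤ n ^ (1/2 - η)`, so
`P ^ (2 + 2δ) ≤ n ^ ((1/2 - η)(2 + η/4)) ≤ n ^ (1 - 2η + η/8)`; for large `n` this times `50000 C` is `≤ n ^ (1 - 3η/2) / 2`.  So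
`Σ ≥ n ^ (1 - 3η/2) / 4350 ≥ (2 n) ^ (1 - 2η) ≥ X ^ (1 - 2η)` for large `n = ⌊X⌋₊`, `X ≤ 2 n`.
-/

set_option autoImplicit false

namespace Pool.Agent.FML

open NumberField Pool.Agent.FTA nonZeroDivisors

private theorem MaM_large (s A : ℝ) (hs : 0 < s) : ∃ N : ℕ, ∀ n : ℕ, N ≤ n → A ≤ (n : ℝ) ^ s := by
  have h := (tendsto_rpow_atTop hs).comp tendsto_natCast_atTop_atTop
  obtain ⟨N, hN⟩ := Filter.eventually_atTop.1 (h.eventually_ge_atTop A)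
  exact ⟨N, fun n hn => hN n hn⟩

private theorem MaM_small
    (hU : ∀ ε : ℝ, 0 < ε → ∃ C : ℝ, ∀ X : ℝ, 1 ≤ X →
      ∑ᶠ K ∈ IQ ⌊X⌋₊, (Nat.card {c : ClassGroup (𝓞 K) // c ^ 3 = 1} : ℝ) ≤ C * X ^ (1 + ε))
    (η : ℝ) (h0 : 0 < η) (h1 : η ≤ 1 / 40) : ∃ X0 : ℝ, ∀ X : ℝ, X0 ≤ X →
      X ^ (1 - 2 * η) ≤ ∑ᶠ K ∈ IQ ⌊X⌋₊,
        ((Nat.card {c : ClassGroup (𝓞 K) // c ^ 3 = 1} : ℝ) - 1) := by
  obtain ⟨C, hC⟩ := hU (η / 8) (by linarith)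
  obtain ⟨Y0, hY0⟩ := prM
  obtain ⟨X0, hX0⟩ := paM η h0 h1 Y0
  obtain ⟨N1, hN1⟩ := MaM_large (3 * η / 8) (100000 * max C 0) (by linarith)
  obtain ⟨N2, hN2⟩ := MaM_large (η / 2) 8700 (by linarith)
  have hC' : ∀ m : ℕ, 1 ≤ m →
      ∑ᶠ K ∈ IQ m, (Nat.card {c : ClassGroup (𝓞 K) // c ^ 3 = 1} : ℝ) ≤
        max C 0 * (m : ℝ) ^ (1 + η / 8) := by
    intro m hm
    have h2 := hC (m : ℝ) (by exact_mod_cast hm)
    rw [Nat.floor_natCast] at h2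
    refine h2.trans (mul_le_mul_of_nonneg_right (le_max_left _ _) ?_)
    positivity
  have hC0 : 0 ≤ max C 0 := le_max_right _ _
  generalize max C 0 = C' at hN1 hC' hC0
  have key : ∀ n : ℕ, X0 ≤ n → N1 ≤ n → N2 ≤ n → 1 ≤ n →
      2 * (n : ℝ) ^ (1 - 2 * η) ≤ ∑ᶠ K ∈ IQ n,
        ((Nat.card {c : ClassGroup (𝓞 K) // c ^ 3 = 1} : ℝ) - 1) := by
    intro n hn0 hn1 hn2 hn3
    obtain ⟨P, Y, R, hP, hYY⟩ := hX0 n hn0
    obtain ⟨S, hS, hcard⟩ := cnM P Y R hP.hY hP.h1 hP.h3 hP.h5 hP.h6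
    have hsm := smM C' (η / 8) hC0 (by linarith) hC' η n P Y R hP S hS
    have hpr := hY0 Y hYY
    generalize (((Finset.Ioc Y (4 * Y)).filter Nat.Prime).card : ℝ) = π at hcard hpr
    generalize ∑ᶠ K ∈ IQ n, ((Nat.card {c : ClassGroup (𝓞 K) // c ^ 3 = 1} : ℝ) - 1) = Sg at hsm ⊢
    have hnpos : (0 : ℝ) < n := by exact_mod_cast hn3
    have hn1' : (1 : ℝ) ≤ n := by exact_mod_cast hn3
    have hY2 : (2 : ℝ) ≤ Y := by exact_mod_cast hP.hY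
    have hYpos : (0 : ℝ) < Y := by linarith
    have hlog : 0 < Real.log Y := Real.log_pos (by linarith)
    have hπ : 0 < π := by
      by_contra h
      push Not at h
      nlinarith
    -- the number of quadruples
    have hS1 : (n : ℝ) ^ (1 - 3 * η / 2) ≤ (S.card : ℝ) := by
      have h8 := hP.h8
      have h2 : (n : ℝ) ^ (1 - 3 * η / 2) * (8192 * Y * Real.log Y) * π ≤
          4096 * (Y : ℝ) ^ 2 * (S.card : ℝ) := by
        refine le_trans ?_ hcard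
        rw [mul_comm π]
        exact mul_le_mul_of_nonneg_right h8 hπ.le
      have hnn : 0 ≤ (n : ℝ) ^ (1 - 3 * η / 2) := by positivity
      have h3 : (n : ℝ) ^ (1 - 3 * η / 2) * (4096 * (Y : ℝ) ^ 2) ≤
          (n : ℝ) ^ (1 - 3 * η / 2) * (8192 * Y * Real.log Y) * π := by
        have h4 : 4096 * (Y : ℝ) ^ 2 ≤ 8192 * Y * Real.log Y * π := by
          have h5 : 4096 * (Y : ℝ) * Y ≤ 4096 * (Y : ℝ) * (2 * Real.log Y * π) :=
            mul_le_mul_of_nonneg_left hpr (by positivity)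
          calc 4096 * (Y : ℝ) ^ 2 = 4096 * (Y : ℝ) * Y := by ring
            _ ≤ 4096 * (Y : ℝ) * (2 * Real.log Y * π) := h5
            _ = 8192 * Y * Real.log Y * π := by ring
        calc (n : ℝ) ^ (1 - 3 * η / 2) * (4096 * (Y : ℝ) ^ 2) ≤
              (n : ℝ) ^ (1 - 3 * η / 2) * (8192 * Y * Real.log Y * π) :=
              mul_le_mul_of_nonneg_left h4 hnn
          _ = (n : ℝ) ^ (1 - 3 * η / 2) * (8192 * Y * Real.log Y) * π := by ring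
      have h4 : (n : ℝ) ^ (1 - 3 * η / 2) * (4096 * (Y : ℝ) ^ 2) ≤
          (S.card : ℝ) * (4096 * (Y : ℝ) ^ 2) := by
        calc _ ≤ _ := h3
          _ ≤ _ := h2
          _ = _ := by ring
      exact le_of_mul_le_mul_right h4 (by positivity)
    -- the error term
    have hPp : (P : ℝ) ^ (2 + 2 * (η / 8)) ≤ (n : ℝ) ^ (1 - 15 * η / 8) := by
      calc (P : ℝ) ^ (2 + 2 * (η / 8)) ≤ ((n : ℝ) ^ (1 / 2 - η)) ^ (2 + 2 * (η / 8)) :=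
            Real.rpow_le_rpow (Nat.cast_nonneg _) hP.h9 (by linarith)
        _ = (n : ℝ) ^ ((1 / 2 - η) * (2 + 2 * (η / 8))) := (Real.rpow_mul hnpos.le _ _).symm
        _ ≤ (n : ℝ) ^ (1 - 15 * η / 8) := by
            refine Real.rpow_le_rpow_of_exponent_le hn1' ?_
            nlinarith
    have hE : 50000 * C' * (P : ℝ) ^ (2 + 2 * (η / 8)) ≤ (n : ℝ) ^ (1 - 3 * η / 2) / 2 := by
      have h2 := hN1 n hn1
      have h3 : (n : ℝ) ^ (1 - 3 * η / 2) = (n : ℝ) ^ (1 - 15 * η / 8) * (n : ℝ) ^ (3 * η / 8) := by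
        rw [← Real.rpow_add hnpos]
        congr 1
        ring
      have h4 : 0 ≤ (n : ℝ) ^ (1 - 15 * η / 8) := by positivity
      calc 50000 * C' * (P : ℝ) ^ (2 + 2 * (η / 8)) ≤ 50000 * C' * (n : ℝ) ^ (1 - 15 * η / 8) :=
            mul_le_mul_of_nonneg_left hPp (by positivity)
        _ = (n : ℝ) ^ (1 - 15 * η / 8) * (100000 * C') / 2 := by ring
        _ ≤ (n : ℝ) ^ (1 - 15 * η / 8) * (n : ℝ) ^ (3 * η / 8) / 2 := by
            have := mul_le_mul_of_nonneg_left h2 h4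
            linarith
        _ = (n : ℝ) ^ (1 - 3 * η / 2) / 2 := by rw [h3]
    have hfin : 8700 * (n : ℝ) ^ (1 - 2 * η) ≤ (n : ℝ) ^ (1 - 3 * η / 2) := by
      have h2 := hN2 n hn2
      have h3 : (n : ℝ) ^ (1 - 3 * η / 2) = (n : ℝ) ^ (1 - 2 * η) * (n : ℝ) ^ (η / 2) := by
        rw [← Real.rpow_add hnpos]
        congr 1
        ring
      rw [h3, mul_comm]
      exact mul_le_mul_of_nonneg_left h2 (by positivity)
    linarith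
  refine ⟨max 2 (max (X0 : ℝ) (max (N1 : ℝ) (N2 : ℝ)) + 1), fun X hX => ?_⟩
  have hX2 : (2 : ℝ) ≤ X := (le_max_left _ _).trans hX
  have hX3 : max (X0 : ℝ) (max (N1 : ℝ) (N2 : ℝ)) + 1 ≤ X := (le_max_right _ _).trans hX
  have ha : (X0 : ℝ) ≤ X := by
    have := le_max_left (X0 : ℝ) (max (N1 : ℝ) (N2 : ℝ))
    linarith
  have hb : (N1 : ℝ) ≤ X := by
    have h2 := le_max_right (X0 : ℝ) (max (N1 : ℝ) (N2 : ℝ))
    have h3 := le_max_left (N1 : ℝ) (N2 : ℝ)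
    linarith
  have hc : (N2 : ℝ) ≤ X := by
    have h2 := le_max_right (X0 : ℝ) (max (N1 : ℝ) (N2 : ℝ))
    have h3 := le_max_right (N1 : ℝ) (N2 : ℝ)
    linarith
  have hn1 : 1 ≤ ⌊X⌋₊ := Nat.le_floor (by push_cast; linarith)
  have hk := key ⌊X⌋₊ (Nat.le_floor ha) (Nat.le_floor hb) (Nat.le_floor hc) hn1
  refine le_trans ?_ hk
  have hlt : X < (⌊X⌋₊ : ℝ) + 1 := Nat.lt_floor_add_one X
  have h1n : (1 : ℝ) ≤ (⌊X⌋₊ : ℝ) := by exact_mod_cast hn1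
  have hX2n : X ≤ 2 * (⌊X⌋₊ : ℝ) := by linarith
  calc X ^ (1 - 2 * η) ≤ (2 * (⌊X⌋₊ : ℝ)) ^ (1 - 2 * η) :=
        Real.rpow_le_rpow (by linarith) hX2n (by linarith)
    _ = (2 : ℝ) ^ (1 - 2 * η) * (⌊X⌋₊ : ℝ) ^ (1 - 2 * η) :=
        Real.mul_rpow (by norm_num) (by linarith)
    _ ≤ 2 * (⌊X⌋₊ : ℝ) ^ (1 - 2 * η) := by
        refine mul_le_mul_of_nonneg_right ?_ (by positivity)
        calc (2 : ℝ) ^ (1 - 2 * η) ≤ (2 : ℝ) ^ (1 : ℝ) :=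
              Real.rpow_le_rpow_of_exponent_le (by norm_num) (by linarith)
          _ = 2 := Real.rpow_one 2

theorem maM
    (hU : ∀ ε : ℝ, 0 < ε → ∃ C : ℝ, ∀ X : ℝ, 1 ≤ X →
      ∑ᶠ K ∈ IQ ⌊X⌋₊, (Nat.card {c : ClassGroup (𝓞 K) // c ^ 3 = 1} : ℝ) ≤ C * X ^ (1 + ε))
    (ε : ℝ) (hε : 0 < ε) : ∃ X0 : ℝ, ∀ X : ℝ, X0 ≤ X →
      X ^ (1 - ε) ≤ ∑ᶠ K ∈ IQ ⌊X⌋₊,
        ((Nat.card {c : ClassGroup (𝓞 K) // c ^ 3 = 1} : ℝ) - 1) := by
  have h1 : min ε (1 / 20) / 2 ≤ 1 / 40 := by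
    have := min_le_right ε (1 / 20 : ℝ)
    linarith
  have h0 : 0 < min ε (1 / 20) / 2 := by
    have : 0 < min ε (1 / 20 : ℝ) := lt_min hε (by norm_num)
    linarith
  obtain ⟨X0, hX0⟩ := MaM_small hU (min ε (1 / 20) / 2) h0 h1
  refine ⟨max X0 1, fun X hX => ?_⟩
  refine le_trans ?_ (hX0 X ((le_max_left _ _).trans hX))
  refine Real.rpow_le_rpow_of_exponent_le ((le_max_right _ _).trans hX) ?_
  have := min_le_left ε (1 / 20 : ℝ)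
  linarith

end Pool.Agent.FML
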