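import Pool.Agent.FML.DefsM
import Pool.Agent.FML.MaM

/-!
# FML/CaM (size 3)

Number of fields with class number divisible by 3.  PROOF.  The first moment bound `hU` of `maM` follows from `h2`, since
`n3 K ≤ n3 K ^ 2` (`n3 K ≥ 1`).  Let `B` be the set of `K ∈ IQ ⌊X⌋₊` with `3 ∣ Nat.card (ClassGroup (𝓞 K))`.  If `K ∉ B` then
`n3 K = 1` (an element of order 3 would give `3 ∣ card`: `orderOf_dvd_natCard`; `c ^ 3 = 1`, `c ≠ 1`).  So by Cauchy-Schwarz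
(`Finset.sum_mul_sq_le_sq_mul_sq` or `sq_sum_le_card_mul_sum_sq` on `B`)
`(∑_{IQ} (n3 K - 1))² = (∑_B (n3 K - 1))² ≤ card B * ∑ (n3 K)²`.  With `δ = ε/4`: the left side is `≥ X ^ (2 - 2δ)` for large `X`
(`maM`), and the sum on the right is `≤ C X ^ (1 + δ)`.  So `card B ≥ X ^ (1 - 3δ) / C ≥ X ^ (1 - ε)` for large `X`.
-/

set_option autoImplicit false

namespace Pool.Agent.FML

open NumberField Pool.Agent.FTA nonZeroDivisors

private theorem caM_one (n : ℕ) (K : IntermediateField ℚ ℂ) (hK : K ∈ IQ n) :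
    (1 : ℝ) ≤ (Nat.card {c : ClassGroup (𝓞 K) // c ^ 3 = 1} : ℝ) := by
  obtain ⟨hN, _⟩ := hK
  have h1 : 0 < Nat.card {c : ClassGroup (𝓞 K) // c ^ 3 = 1} := by
    have : Nonempty {c : ClassGroup (𝓞 K) // c ^ 3 = 1} := ⟨⟨1, one_pow 3⟩⟩
    exact Nat.card_pos
  exact_mod_cast h1

private theorem caM_triv (n : ℕ) (K : IntermediateField ℚ ℂ) (hK : K ∈ IQ n)
    (h3 : ¬ 3 ∣ Nat.card (ClassGroup (𝓞 K))) :
    (Nat.card {c : ClassGroup (𝓞 K) // c ^ 3 = 1} : ℝ) = 1 := by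
  obtain ⟨hN, _⟩ := hK
  have h1 : Nat.card {c : ClassGroup (𝓞 K) // c ^ 3 = 1} = 1 := by
    rw [Nat.card_eq_one_iff_unique]
    refine ⟨⟨?_⟩, ⟨⟨1, one_pow 3⟩⟩⟩
    have key : ∀ c : ClassGroup (𝓞 K), c ^ 3 = 1 → c = 1 := by
      intro c hc
      by_contra hne
      apply h3
      have : Fact (Nat.Prime 3) := ⟨Nat.prime_three⟩
      rw [← orderOf_eq_prime hc hne]
      exact orderOf_dvd_natCard c
    rintro ⟨c, hc⟩ ⟨d, hd⟩
    exact Subtype.ext ((key c hc).trans (key d hd).symm)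
  rw [h1]
  norm_num

theorem caM
    (h2 : ∀ ε : ℝ, 0 < ε → ∃ C : ℝ, ∀ X : ℝ, 1 ≤ X →
      ∑ᶠ K ∈ IQ ⌊X⌋₊, (Nat.card {c : ClassGroup (𝓞 K) // c ^ 3 = 1} : ℝ) ^ 2 ≤
        C * X ^ (1 + ε))
    (ε : ℝ) (hε : 0 < ε) : ∃ X0 : ℝ, ∀ X : ℝ, X0 ≤ X →
      X ^ (1 - ε) ≤ (({K ∈ IQ ⌊X⌋₊ | 3 ∣ Nat.card (ClassGroup (𝓞 K))}).ncard : ℝ) := by
  classical
  have hU : ∀ ε : ℝ, 0 < ε → ∃ C : ℝ, ∀ X : ℝ, 1 ≤ X →
      ∑ᶠ K ∈ IQ ⌊X⌋₊, (Nat.card {c : ClassGroup (𝓞 K) // c ^ 3 = 1} : ℝ) ≤ C * X ^ (1 + ε) := by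
    intro ε hε
    obtain ⟨C, hC⟩ := h2 ε hε
    refine ⟨C, fun X hX => le_trans ?_ (hC X hX)⟩
    rw [finsum_mem_eq_finite_toFinset_sum _ (famFin _), finsum_mem_eq_finite_toFinset_sum _ (famFin _)]
    apply Finset.sum_le_sum
    intro K hK
    rw [Set.Finite.mem_toFinset] at hK
    have h1 := caM_one _ K hK
    nlinarith
  obtain ⟨X0, hX0⟩ := maM hU (ε / 4) (by linarith)
  obtain ⟨C, hC⟩ := h2 (ε / 4) (by linarith)
  refine ⟨max (max X0 1) ((max C 1) ^ (4 / ε)), fun X hX => ?_⟩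
  have hXa : X0 ≤ X := (le_max_left _ _).trans ((le_max_left _ _).trans hX)
  have hXb : 1 ≤ X := (le_max_right _ _).trans ((le_max_left _ _).trans hX)
  have hXc : (max C 1) ^ (4 / ε) ≤ X := (le_max_right _ _).trans hX
  have hXp : 0 < X := by linarith
  have hC1 : (1 : ℝ) ≤ max C 1 := le_max_right _ _
  have hC2 : C ≤ max C 1 := le_max_left _ _
  have m1 := hX0 X hXa
  have m2 := hC X hXb
  rw [finsum_mem_eq_finite_toFinset_sum _ (famFin _)] at m1 m2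
  set F : Finset (IntermediateField ℚ ℂ) := (famFin ⌊X⌋₊).toFinset with hF
  set f : IntermediateField ℚ ℂ → ℝ := fun K =>
    (Nat.card {c : ClassGroup (𝓞 K) // c ^ 3 = 1} : ℝ) with hf
  have hmem : ∀ K, K ∈ F ↔ K ∈ IQ ⌊X⌋₊ := by
    intro K
    rw [hF, Set.Finite.mem_toFinset]
  set B : Finset (IntermediateField ℚ ℂ) := F.filter (fun K => 3 ∣ Nat.card (ClassGroup (𝓞 K)))
    with hB
  have hcard : ({K ∈ IQ ⌊X⌋₊ | 3 ∣ Nat.card (ClassGroup (𝓞 K))}).ncard = B.card := by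
    rw [← Set.ncard_coe_finset]
    congr 1
    ext K
    rw [hB, Finset.coe_filter, Set.mem_ofPred_eq, Set.mem_ofPred_eq, hmem]
  rw [hcard]
  have s1 : ∑ K ∈ F, (f K - 1) = ∑ K ∈ B, (f K - 1) := by
    symm
    apply Finset.sum_subset (Finset.filter_subset _ _)
    intro K hK hK'
    have h3 : ¬ 3 ∣ Nat.card (ClassGroup (𝓞 K)) := by
      intro h
      exact hK' (Finset.mem_filter.mpr ⟨hK, h⟩)
    have h4 := caM_triv _ K ((hmem K).mp hK) h3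
    change (Nat.card {c : ClassGroup (𝓞 K) // c ^ 3 = 1} : ℝ) - 1 = 0
    rw [h4]
    ring
  have s2 : (∑ K ∈ B, (f K - 1)) ^ 2 ≤ (B.card : ℝ) * ∑ K ∈ B, (f K - 1) ^ 2 :=
    sq_sum_le_card_mul_sum_sq
  have s3 : ∑ K ∈ B, (f K - 1) ^ 2 ≤ ∑ K ∈ F, f K ^ 2 := by
    calc ∑ K ∈ B, (f K - 1) ^ 2 ≤ ∑ K ∈ B, f K ^ 2 := by
          apply Finset.sum_le_sum
          intro K hK
          have h1 : (1 : ℝ) ≤ f K := caM_one _ K ((hmem K).mp (Finset.mem_filter.mp hK).1)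
          nlinarith
      _ ≤ ∑ K ∈ F, f K ^ 2 :=
          Finset.sum_le_sum_of_subset_of_nonneg (Finset.filter_subset _ _)
            (fun K _ _ => sq_nonneg _)
  have m1' : X ^ (1 - ε / 4) ≤ ∑ K ∈ B, (f K - 1) := by
    rw [← s1]
    exact m1
  have m2' : ∑ K ∈ F, f K ^ 2 ≤ max C 1 * X ^ (1 + ε / 4) :=
    m2.trans (mul_le_mul_of_nonneg_right hC2 (Real.rpow_nonneg hXp.le _))
  have t1 : (X ^ (1 - ε / 4)) ^ 2 ≤ (B.card : ℝ) * (max C 1 * X ^ (1 + ε / 4)) := by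
    calc (X ^ (1 - ε / 4)) ^ 2 ≤ (∑ K ∈ B, (f K - 1)) ^ 2 :=
          pow_le_pow_left₀ (Real.rpow_nonneg hXp.le _) m1' 2
      _ ≤ (B.card : ℝ) * ∑ K ∈ B, (f K - 1) ^ 2 := s2
      _ ≤ (B.card : ℝ) * (max C 1 * X ^ (1 + ε / 4)) :=
          mul_le_mul_of_nonneg_left (s3.trans m2') (Nat.cast_nonneg _)
  have t2 : max C 1 ≤ X ^ (ε / 4) := by
    have h1 : ((max C 1) ^ (4 / ε)) ^ (ε / 4) ≤ X ^ (ε / 4) :=
      Real.rpow_le_rpow (Real.rpow_nonneg (by linarith) _) hXc (by linarith)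
    rw [← Real.rpow_mul (by linarith)] at h1
    have h2 : 4 / ε * (ε / 4) = 1 := by
      field_simp
    rw [h2, Real.rpow_one] at h1
    exact h1
  have t3 : (X ^ (1 - ε / 4)) ^ 2 = X ^ (1 - ε) * (X ^ (ε / 4) * X ^ (1 + ε / 4)) := by
    rw [← Real.rpow_natCast, ← Real.rpow_mul hXp.le, ← Real.rpow_add hXp, ← Real.rpow_add hXp]
    congr 1
    push_cast
    ring
  have t4 : X ^ (1 - ε) * (max C 1 * X ^ (1 + ε / 4)) ≤
      (B.card : ℝ) * (max C 1 * X ^ (1 + ε / 4)) := by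
    calc X ^ (1 - ε) * (max C 1 * X ^ (1 + ε / 4))
        ≤ X ^ (1 - ε) * (X ^ (ε / 4) * X ^ (1 + ε / 4)) := by
          apply mul_le_mul_of_nonneg_left _ (Real.rpow_nonneg hXp.le _)
          exact mul_le_mul_of_nonneg_right t2 (Real.rpow_nonneg hXp.le _)
      _ = (X ^ (1 - ε / 4)) ^ 2 := t3.symm
      _ ≤ (B.card : ℝ) * (max C 1 * X ^ (1 + ε / 4)) := t1
  have t5 : 0 < max C 1 * X ^ (1 + ε / 4) :=
    mul_pos (by linarith) (Real.rpow_pos_of_pos hXp _)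
  exact le_of_mul_le_mul_right t4 t5

end Pool.Agent.FML
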