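import Pool.Agent.FTA.DefsC
import Pool.Agent.FTA.Coord
import Pool.Agent.FTA.Fam
import Pool.Agent.FTA.Uniq

/-!
# FML/DefsM (size 0)

Definitions for the lower bound of the average of the 3-torsion (squad FML).
For integers `a, b, c, d` put `N = b² + a c`, `t = 2 b³ + 3 a b c + a² d`,
`D = 3 b² c² + 4 a c³ - a² d² - 4 b³ d - 6 a b c d`; then `t² + a² D = 4 N³`.
-/

set_option autoImplicit false

namespace Pool.Agent.FML

open NumberField Pool.Agent.FTA nonZeroDivisors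

def Nq (a b c : ℕ) : ℕ := b ^ 2 + a * c

def tq (a b c d : ℕ) : ℕ := 2 * b ^ 3 + 3 * a * b * c + a ^ 2 * d

def Dz (a b c d : ℕ) : ℤ :=
  3 * (b : ℤ) ^ 2 * c ^ 2 + 4 * a * (c : ℤ) ^ 3 - (a : ℤ) ^ 2 * d ^ 2 - 4 * (b : ℤ) ^ 3 * d -
    6 * a * b * c * d

/-- the natural number `D` of the quadruple -/
def Dq (a b c d : ℕ) : ℕ := (Dz a b c d).toNat

/-- the quadruples which are counted -/
structure IsQ (P Y R a b c d : ℕ) : Prop where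
  pr : a.Prime
  la : Y < a
  ua : a ≤ 4 * Y
  lb : 1 ≤ b
  ub : b < a
  lc : P < a * c
  uc : 2 * (a * c) ≤ 3 * P
  ld : 1 ≤ d
  ut : tq a b c d ≤ R
  co : Nat.Coprime (Nq a b c) (tq a b c d)

/-- the conditions on the parameters -/
structure IsP (η : ℝ) (X P Y R : ℕ) : Prop where
  hY : 2 ≤ Y
  h1 : 129 * Y ^ 2 ≤ P
  h2 : R ^ 2 ≤ P ^ 3
  h3 : 256 * Y ^ 3 + 36 * (Y * P) ≤ R
  h5 : (16 * Y : ℝ) * (40 * (3 + Real.log P)) ≤ P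
  h6 : (64 * (Y : ℝ) ^ 2) * (40 * (3 + Real.log P)) ≤ R
  h7 : 128 * P ^ 3 < Y ^ 8
  h8 : (X : ℝ) ^ (1 - 3 * η / 2) * (8192 * Y * Real.log Y) ≤ P * R
  h9 : (P : ℝ) ≤ (X : ℝ) ^ (1 / 2 - η)
  h10 : 128 * P ^ 3 ≤ X * Y ^ 2

/-- the field `ℚ(√-d)` -/
noncomputable def Kd (d : ℕ) : IntermediateField ℚ ℂ :=
  IntermediateField.adjoin ℚ {((√(d : ℝ) : ℝ) : ℂ) * Complex.I}

/-- primitive ideals -/
def Prim (K : IntermediateField ℚ ℂ) [NumberField K] (I : Ideal (𝓞 K)) : Prop :=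
  ∀ n : ℕ, 2 ≤ n → ¬ (I ≤ Ideal.span {(n : 𝓞 K)})

end Pool.Agent.FML
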